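import Mathlib

/-!
Definitions for the problem MP_68c508_lc (decidability of the elementary theory of the
Grigorchuk group).
-/

open FirstOrder

namespace Pool.Agent.Lib.MP_68c508_lc

/-! ### The Grigorchuk group

Words over `X = {0,1}` are lists of Booleans, `false` standing for `0` and `true` for `1`. -/

/-- The function `a`: `a(0w) = 1w`, `a(1w) = 0w`. -/
def fa : List Bool → List Bool
  | [] => []
  | x :: w => (!x) :: w

mutual
  /-- The function `b`: `b(0w) = 0a(w)`, `b(1w) = 1c(w)`. -/
  def fb : List Bool → List Bool
    | [] => []
    | false :: w => false :: fa w
    | true :: w => true :: fc w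
  /-- The function `c`: `c(0w) = 0a(w)`, `c(1w) = 1d(w)`. -/
  def fc : List Bool → List Bool
    | [] => []
    | false :: w => false :: fa w
    | true :: w => true :: fd w
  /-- The function `d`: `d(0w) = 0w`, `d(1w) = 1b(w)`. -/
  def fd : List Bool → List Bool
    | [] => []
    | false :: w => false :: w
    | true :: w => true :: fb w
end

theorem fa_fa : Function.Involutive fa := by
  intro w
  cases w with
  | nil => rfl
  | cons x w => simp [fa]

theorem fbcd_inv (w : List Bool) : fb (fb w) = w ∧ fc (fc w) = w ∧ fd (fd w) = w := by
  induction w with
  | nil => simp [fb, fc, fd]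
  | cons x w ih => cases x <;> simp [fb, fc, fd, ih, fa_fa w]

/-- The generator `a` as a permutation of the set of finite words. -/
def a : Equiv.Perm (List Bool) := fa_fa.toPerm

/-- The generator `b` as a permutation of the set of finite words. -/
def b : Equiv.Perm (List Bool) :=
  Function.Involutive.toPerm fb fun w => (fbcd_inv w).1

/-- The generator `c` as a permutation of the set of finite words. -/
def c : Equiv.Perm (List Bool) :=
  Function.Involutive.toPerm fc fun w => (fbcd_inv w).2.1

/-- The generator `d` as a permutation of the set of finite words. -/
def d : Equiv.Perm (List Bool) :=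
  Function.Involutive.toPerm fd fun w => (fbcd_inv w).2.2

/-- The Grigorchuk group: the group of permutations of the set of finite words over `{0,1}`
generated by `a`, `b`, `c`, `d`. -/
def GrigorchukGroup : Subgroup (Equiv.Perm (List Bool)) := Subgroup.closure {a, b, c, d}

/-! ### First-order sentences in the language of groups -/

/-- The function symbols of the language of groups. -/
inductive GroupFunc : ℕ → Type
  | one : GroupFunc 0
  | inv : GroupFunc 1
  | mul : GroupFunc 2

/-- The language of groups: symbols for identity, inverse and multiplication, no relation
symbols (equality is a logical symbol). -/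
def LG : FirstOrder.Language.{0, 0} := ⟨GroupFunc, fun _ => Empty⟩

/-- Every group is a structure for the language of groups. -/
instance groupStructure (G : Type) [Group G] : LG.Structure G where
  funMap := fun {_} f v => match f, v with
    | .one, _ => 1
    | .inv, v => (v 0)⁻¹
    | .mul, v => v 0 * v 1
  RelMap := fun r _ => Empty.elim r

/-- The Goedel number of a term. In the scope of `n` quantifiers the bound variable `i < n` has
number `4 i`, and the free variable `x` has number `4 (n + e x)`, where `e` numbers the free
variables. -/
def tnum {α : Type} (e : α → ℕ) {n : ℕ} : LG.Term (α ⊕ Fin n) → ℕ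
  | .var (.inl x) => 4 * (n + e x)
  | .var (.inr i) => 4 * i
  | .func .one _ => 1
  | .func .inv ts => 4 * tnum e (ts 0) + 2
  | .func .mul ts => 4 * Nat.pair (tnum e (ts 0)) (tnum e (ts 1)) + 3

/-- The Goedel number of a first-order formula in the language of groups. -/
def fnum {α : Type} (e : α → ℕ) : {n : ℕ} → LG.BoundedFormula α n → ℕ
  | _, .falsum => 0
  | _, .equal t₁ t₂ => 3 * Nat.pair (tnum e t₁) (tnum e t₂) + 1
  | _, .rel R _ => Empty.elim R
  | _, .imp f g => 3 * Nat.pair (fnum e f) (fnum e g) + 2
  | _, .all f => 3 * fnum e f + 3

/-- The elementary theory of the group `G` is decidable: there is an algorithm (a partial recursive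
function `f`) that halts on the Goedel number of every first-order sentence of the language of
groups and reports correctly whether the sentence is true in `G`. -/
def DecidableElementaryTheory (G : Type) [Group G] : Prop :=
  ∃ f : ℕ →. Bool, Partrec f ∧
    ∀ φ : LG.Sentence, ∃ r ∈ f (fnum Empty.elim φ), (r = true ↔ G ⊨ φ)

end Pool.Agent.Lib.MP_68c508_lc
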