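import Pool.Agent.Lib.MP_68c508_lc.Machine

/-!
Local rules describing the computations of a stack machine.
-/

namespace Pool.Agent.Lib.MP_68c508_lc

open Turing.PartrecToTM2 (K' Γ')

/-- the colours: `inl false` marks the first column, `inl true` the first row; the other colours
are the states and the pairs stack, symbol -/
abbrev Col (Q K Γ : Type) : Type := Bool ⊕ Q ⊕ (K × Γ)

section
variable {Q K Γ : Type} [DecidableEq K]

/-- mark of the first column -/
def lam : Col Q K Γ := .inl false
/-- mark of the first row -/
def rho : Col Q K Γ := .inl true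
/-- state `q` -/
def lab (q : Q) : Col Q K Γ := .inr (.inl q)
/-- stack `k` has symbol `a` in this cell -/
def sym (k : K) (a : Γ) : Col Q K Γ := .inr (.inr (k, a))

/-- stack `k` has content `t` in this cell -/
def Content (o : Col Q K Γ → Prop) (k : K) (t : Option Γ) : Prop :=
  ∀ b, o (sym k b) ↔ t = some b

/-- the rule belonging to an instruction -/
def InstrRule (k₀ : K) (a₀ : Γ) (o r u ur : Col Q K Γ → Prop) : Instr Q K Γ → Prop
  | .push k a q' => u (lab q') ∧ (o lam → ∀ b, (u (sym k b) ↔ b = a)) ∧
      (¬ r lam → ∀ b, (ur (sym k b) ↔ o (sym k b))) ∧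
      ∀ k', k' ≠ k → ∀ b, (u (sym k' b) ↔ o (sym k' b))
  | .pop k f => (o lam → ∀ t, Content o k t → u (lab (f t))) ∧
      (¬ r lam → ∀ b, (u (sym k b) ↔ r (sym k b))) ∧
      (r lam → ∀ b, ¬ u (sym k b)) ∧
      ∀ k', k' ≠ k → ∀ b, (u (sym k' b) ↔ o (sym k' b))
  | .peek k f => (o lam → ∀ t, Content o k t → u (lab (f t))) ∧
      ∀ k' b, (u (sym k' b) ↔ o (sym k' b))
  | .halt => ¬ (o lam ∧ o (sym k₀ a₀))

/-- the local rules for a cell `o`, its right neighbour `r`, its upper neighbour `u` and the
upper neighbour `ur` of its right neighbour -/
structure Rules (M : Q → Instr Q K Γ) (k₀ : K) (a₀ : Γ) (o r u ur : Col Q K Γ → Prop) :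
    Prop where
  r1 : ∀ q, o (lab q) → r (lab q)
  r2 : u lam ↔ o lam
  r3 : o rho → r rho
  r4 : o rho → ¬ r lam → (∀ k a, ¬ o (sym k a)) → ∀ k a, ¬ r (sym k a)
  r5 : r lam → ∀ k a, ¬ o (sym k a)
  r6 : ∀ q, o (lab q) → InstrRule k₀ a₀ o r u ur (M q)

/-- the initial conditions for the first row: the initial contents `S` of the stacks have length
at most `L` -/
structure InitRow (q₀ : Q) (S : K → List Γ) (L : ℕ) (row : ℕ → Col Q K Γ → Prop) : Prop where
  hlam : row 0 lam
  hrho : row 0 rho
  hlab : row 0 (lab q₀)
  hnl : ∀ i, 1 ≤ i → i ≤ L → ¬ row i lam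
  hsym : ∀ i, i ≤ L → ∀ k a, (row i (sym k a) ↔ (S k)[i]? = some a)

/-- the cell `i` belongs to the row -/
def InRow (row : ℕ → Col Q K Γ → Prop) (i : ℕ) : Prop := ∀ i', 1 ≤ i' → i' ≤ i → ¬ row i' lam

/-- the row encodes the configuration -/
def EncRow (row₀ row : ℕ → Col Q K Γ → Prop) (c : Q × (K → List Γ)) : Prop :=
  (∀ i, row i (lab c.1)) ∧ ∀ i, InRow row₀ i → ∀ k a, (row i (sym k a) ↔ (c.2 k)[i]? = some a)

theorem soundness (M : Q → Instr Q K Γ) (k₀ : K) (a₀ : Γ) (q₀ : Q) (S : K → List Γ) (L : ℕ)
    (hS : ∀ k, (S k).length ≤ L) (C : ℕ → ℕ → Col Q K Γ → Prop)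
    (hC : ∀ i j, Rules M k₀ a₀ (C i j) (C (i + 1) j) (C i (j + 1)) (C (i + 1) (j + 1)))
    (hI : InitRow q₀ S L (fun i => C i 0)) (T : ℕ)
    (hT : M (runI M (q₀, S) T).1 = .halt) : ((runI M (q₀, S) T).2 k₀).head? ≠ some a₀ := by
  -- columns
  have hlamj : ∀ i j, C i j lam ↔ C i 0 lam := by
    intro i j
    induction j with
    | zero => exact Iff.rfl
    | succ j ih => rw [(hC i j).r2, ih]
  have hlab : ∀ j q, C 0 j (lab q) → ∀ i, C i j (lab q) := by
    intro j q h0 i
    induction i with
    | zero => exact h0
    | succ i ih => exact (hC i j).r1 q ih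
  have key : ∀ j, ∃ j', EncRow (fun i => C i 0) (fun i => C i j') (runI M (q₀, S) j) := by
    intro j
    induction j with
    | zero =>
      refine ⟨0, hlab 0 q₀ hI.hlab, ?_⟩
      have hrho : ∀ i, C i 0 rho := by
        intro i
        induction i with
        | zero => exact hI.hrho
        | succ i ih => exact (hC i 0).r3 ih
      have hbl : ∀ i, L ≤ i → InRow (fun i => C i 0) i → ∀ k a, ¬ C i 0 (sym k a) := by
        intro i hi
        induction i, hi using Nat.le_induction with
        | base =>
          intro _ k a h
          rw [hI.hsym L le_rfl k a] at h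
          have h1 : (S k)[L]? = none := List.getElem?_eq_none (hS k)
          rw [h1] at h
          exact absurd h (by simp)
        | succ i hi ih =>
          intro hin
          exact (hC i 0).r4 (hrho i) (hin (i + 1) (by omega) le_rfl)
            (ih fun i' h1 h2 => hin i' h1 (by omega))
      intro i hi k a
      by_cases hiL : i ≤ L
      · exact hI.hsym i hiL k a
      · have h1 : (S k)[i]? = none := List.getElem?_eq_none (by have := hS k; omega)
        have h2 := hbl i (by omega) hi k a
        show C i 0 (sym k a) ↔ (S k)[i]? = some a
        rw [h1]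
        simp [h2]
    | succ j ih =>
      obtain ⟨j', h1, h2⟩ := ih
      rw [runI_succ]
      generalize hc : runI M (q₀, S) j = c at h1 h2
      obtain ⟨q, S'⟩ := c
      have h1' : ∀ i, C i j' (lab q) := h1
      have h2' : ∀ i, InRow (fun i => C i 0) i → ∀ k a,
        (C i j' (sym k a) ↔ (S' k)[i]? = some a) := h2
      have hr6 := fun i => (hC i j').r6 q (h1' i)
      have hin0 : InRow (fun i => C i 0) 0 := fun i' h3 h4 => absurd h4 (by omega)
      have hins : ∀ i, InRow (fun i => C i 0) i → ¬ C (i + 1) j' lam →
          InRow (fun i => C i 0) (i + 1) := by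
        intro i hi hn i' h3 h4
        rcases Nat.lt_or_ge i' (i + 1) with h5 | h5
        · exact hi i' h3 (by omega)
        · have : i' = i + 1 := by omega
          subst this
          rwa [hlamj] at hn
      have hinp : ∀ i, InRow (fun i => C i 0) (i + 1) → InRow (fun i => C i 0) i :=
        fun i hi i' h3 h4 => hi i' h3 (by omega)
      have hcont : ∀ k, Content (C 0 j') k ((S' k).head?) := by
        intro k b
        rw [h2' 0 hin0, List.head?_eq_getElem?]
      have hlam0 : C 0 j' lam := (hlamj 0 j').2 hI.hlam
      have hlast : ∀ i, InRow (fun i => C i 0) i → C (i + 1) j' lam → ∀ k,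
          (S' k).length ≤ i := by
        intro i hi hl k
        have h3 := (hC i j').r5 hl k
        by_contra hlen
        have h4 : (S' k)[i]? = some (S' k)[i] := List.getElem?_eq_getElem (by omega)
        exact h3 _ ((h2' i hi k _).2 h4)
      unfold stepI
      show ∃ j', EncRow _ _ (act q S' (M q))
      cases hM : M q with
      | push k a q' =>
        refine ⟨j' + 1, ?_, ?_⟩
        · apply hlab
          have := hr6 0
          rw [hM] at this
          exact this.1
        · intro i hi k' a'
          show C i (j' + 1) (sym k' a') ↔ (Function.update S' k (a :: S' k) k')[i]? = some a'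
          by_cases hk : k' = k
          · subst hk
            rw [Function.update_self]
            cases i with
            | zero =>
              have := hr6 0
              rw [hM] at this
              rw [this.2.1 hlam0 a']
              simp [eq_comm]
            | succ i =>
              have := hr6 i
              rw [hM] at this
              have hn : ¬ C (i + 1) j' lam := by
                rw [hlamj]
                exact hi (i + 1) (by omega) le_rfl
              rw [this.2.2.1 hn a', h2' i (hinp i hi)]
              simp
          · rw [Function.update_of_ne hk]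
            have := hr6 i
            rw [hM] at this
            rw [this.2.2.2 k' hk a', h2' i hi]
      | pop k f =>
        refine ⟨j' + 1, ?_, ?_⟩
        · apply hlab
          have := hr6 0
          rw [hM] at this
          exact this.1 hlam0 _ (hcont k)
        · intro i hi k' a'
          show C i (j' + 1) (sym k' a') ↔ (Function.update S' k (S' k).tail k')[i]? = some a'
          have := hr6 i
          rw [hM] at this
          by_cases hk : k' = k
          · subst hk
            rw [Function.update_self, List.getElem?_tail]
            by_cases hn : C (i + 1) j' lam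
            · have h3 := hlast i hi hn k'
              have h4 : (S' k')[i + 1]? = none := List.getElem?_eq_none (by omega)
              rw [h4]
              have := this.2.2.1 hn a'
              simp [this]
            · rw [this.2.1 hn a', h2' (i + 1) (hins i hi hn)]
          · rw [Function.update_of_ne hk, this.2.2.2 k' hk a', h2' i hi]
      | peek k f =>
        refine ⟨j' + 1, ?_, ?_⟩
        · apply hlab
          have := hr6 0
          rw [hM] at this
          exact this.1 hlam0 _ (hcont k)
        · intro i hi k' a'
          show C i (j' + 1) (sym k' a') ↔ (S' k')[i]? = some a'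
          have := hr6 i
          rw [hM] at this
          rw [this.2 k' a', h2' i hi]
      | halt => exact ⟨j', h1, h2⟩
  obtain ⟨j', h1, h2⟩ := key T
  intro hhead
  have h3 := (hC 0 j').r6 _ (h1 0)
  rw [hT] at h3
  apply h3
  refine ⟨(hlamj 0 j').2 hI.hlam, ?_⟩
  refine (h2 0 (fun i' h3 h4 => absurd h4 (by omega)) k₀ a₀).2 ?_
  rw [← List.head?_eq_getElem?]
  exact hhead

theorem runI_length (M : Q → Instr Q K Γ) (c : Q × (K → List Γ)) (L : ℕ)
    (hS : ∀ k, (c.2 k).length ≤ L) (j : ℕ) : ∀ k, ((runI M c j).2 k).length ≤ L + j := by
  induction j with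
  | zero => exact hS
  | succ j ih =>
    intro k
    rw [runI_succ]
    unfold stepI
    generalize runI M c j = c' at ih
    obtain ⟨q, S'⟩ := c'
    have ih' : ∀ k, (S' k).length ≤ L + j := ih
    show ((act q S' (M q)).2 k).length ≤ _
    cases M q with
    | push k' a q' =>
      show (Function.update S' k' (a :: S' k') k).length ≤ _
      by_cases hk : k = k'
      · subst hk
        rw [Function.update_self, List.length_cons]
        have := ih' k
        omega
      · rw [Function.update_of_ne hk]
        have := ih' k
        omega
    | pop k' f =>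
      show (Function.update S' k' (S' k').tail k).length ≤ _
      by_cases hk : k = k'
      · subst hk
        rw [Function.update_self, List.length_tail]
        have := ih' k
        omega
      · rw [Function.update_of_ne hk]
        have := ih' k
        omega
    | peek k' f =>
      show (S' k).length ≤ _
      have := ih' k
      omega
    | halt =>
      show (S' k).length ≤ _
      have := ih' k
      omega

theorem completeness (M : Q → Instr Q K Γ) (k₀ : K) (a₀ : Γ) (q₀ : Q) (S : K → List Γ) (L : ℕ)
    (hS : ∀ k, (S k).length ≤ L) (T : ℕ)
    (hT : M (runI M (q₀, S) T).1 = .halt) (hT' : ((runI M (q₀, S) T).2 k₀).head? ≠ some a₀)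
    (N : ℕ) (hN : L + T + 1 < N) :
    ∃ C : Col Q K Γ → Set (ZMod N × ZMod N),
      (∀ x : ZMod N × ZMod N, Rules M k₀ a₀ (fun c => x ∈ C c) (fun c => x + (1, 0) ∈ C c)
        (fun c => x + (0, 1) ∈ C c) (fun c => x + (1, 0) + (0, 1) ∈ C c)) ∧
      InitRow q₀ S L (fun i c => (((i : ℕ) : ZMod N), (0 : ZMod N)) ∈ C c) := by
  classical
  have : NeZero N := ⟨by omega⟩
  have h1N : Fact (1 < N) := ⟨by omega⟩
  set cf := runI M (q₀, S) with hcf
  have hlen : ∀ j k, ((cf j).2 k).length ≤ L + T := by
    intro j k
    rcases Nat.le_total j T with h | h
    · have := runI_length M (q₀, S) L hS j k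
      rw [← hcf] at this
      omega
    · rw [hcf, runI_halt M (q₀, S) T j h hT]
      exact runI_length M (q₀, S) L hS T k
  refine ⟨fun c => {x | match c with
    | .inl false => x.1 = 0
    | .inl true => x.2 = 0
    | .inr (.inl q) => (cf x.2.val).1 = q
    | .inr (.inr (k, a)) => ((cf x.2.val).2 k)[x.1.val]? = some a}, ?_, ?_⟩
  · rintro ⟨x, y⟩
    have hval : ∀ x : ZMod N, x + 1 ≠ 0 → (x + 1).val = x.val + 1 := by
      intro x hx
      have h2 : x.val < N := ZMod.val_lt x
      rcases Nat.lt_or_ge (x.val + 1) N with h3 | h3
      · rw [ZMod.val_add_of_lt, ZMod.val_one]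
        rw [ZMod.val_one]; exact h3
      · exfalso
        apply hx
        have h4 : x.val = N - 1 := by omega
        have h5 : x = ((N - 1 : ℕ) : ZMod N) := by rw [← h4, ZMod.natCast_zmod_val]
        rw [h5, Nat.cast_sub (by omega)]
        simp
    have hval0 : ∀ x : ZMod N, x + 1 = 0 → x.val = N - 1 := by
      intro x hx
      have h2 : x = ((N - 1 : ℕ) : ZMod N) := by
        rw [Nat.cast_sub (by omega)]
        simp only [CharP.cast_eq_zero, Nat.cast_one, zero_sub]
        exact eq_neg_of_add_eq_zero_left hx
      rw [h2, ZMod.val_natCast, Nat.mod_eq_of_lt (by omega)]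
    constructor
    · intro q h
      show (cf ((y + 0).val)).1 = q
      rw [add_zero]; exact h
    · show x + 0 = 0 ↔ x = 0
      rw [add_zero]
    · intro h
      show y + 0 = 0
      rw [add_zero]; exact h
    · intro hy hx hb k a
      have hx' : ¬ (x + 1 = 0) := hx
      show ¬ ((cf ((y + 0).val)).2 k)[(x + 1).val]? = some a
      rw [add_zero, hval x hx']
      intro h
      have h2 : ¬ ∃ b, ((cf (y.val)).2 k)[x.val]? = some b := fun ⟨b, hb'⟩ => hb k b hb'
      have h3 : x.val + 1 < ((cf y.val).2 k).length := by
        by_contra h4
        rw [List.getElem?_eq_none (by omega)] at h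
        exact absurd h (by simp)
      exact h2 ⟨_, List.getElem?_eq_getElem (by omega)⟩
    · intro hx k a h
      have hx' : x + 1 = 0 := hx
      have h1 : ((cf (y.val)).2 k)[x.val]? = some a := h
      rw [List.getElem?_eq_none] at h1
      · exact absurd h1 (by simp)
      · have := hlen y.val k
        rw [hval0 x hx']
        omega
    · intro q hq
      have hq' : (cf y.val).1 = q := hq
      subst hq'
      by_cases hh : M (cf y.val).1 = .halt
      · rw [hh]
        rintro ⟨h1, h2⟩
        have h1' : x = 0 := h1
        have h2' : ((cf (y.val)).2 k₀)[x.val]? = some a₀ := h2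
        rw [h1', ZMod.val_zero, ← List.head?_eq_getElem?] at h2'
        apply hT'
        rcases Nat.le_total y.val T with h | h
        · rw [hcf] at h2' hh ⊢
          rw [runI_halt M (q₀, S) _ T h hh]
          exact h2'
        · rw [hcf, runI_halt M (q₀, S) T _ h hT] at h2'
          exact h2'
      · have hyT : y.val < T := by
          by_contra h
          apply hh
          rw [hcf, runI_halt M (q₀, S) T _ (by omega) hT]
          exact hT
        have hy1 : (y + 1).val = y.val + 1 := by
          apply hval
          intro h
          have := hval0 y h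
          omega
        have hstep : cf (y + 1).val = act (cf y.val).1 (cf y.val).2 (M (cf y.val).1) := by
          rw [hy1, hcf, runI_succ]; rfl
        have hadd : ((x, y) + (0, 1) : ZMod N × ZMod N) = (x, y + 1) := by simp
        have hadd1 : ((x, y) + (1, 0) : ZMod N × ZMod N) = (x + 1, y) := by simp
        have hadd2 : ((x + 1, y) + (0, 1) : ZMod N × ZMod N) = (x + 1, y + 1) := by simp
        simp only [hadd1, hadd2, hadd]
        have hlen' := hlen y.val
        generalize hc : cf y.val = c at hstep hh hlen' ⊢
        obtain ⟨q, S'⟩ := c
        change M q ≠ .halt at hh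
        change cf (y + 1).val = act q S' (M q) at hstep
        change ∀ k, (S' k).length ≤ L + T at hlen'
        show InstrRule k₀ a₀ _ _ _ _ (M q)
        cases hM : M q with
        | push k a q' =>
          rw [hM] at hstep
          change cf (y + 1).val = (q', Function.update S' k (a :: S' k)) at hstep
          refine ⟨?_, ?_, ?_, ?_⟩
          · show (cf (y + 1).val).1 = q'
            rw [hstep]
          · intro hx b
            have hx' : x = 0 := hx
            show ((cf (y + 1).val).2 k)[x.val]? = some b ↔ b = a
            rw [hstep, hx', ZMod.val_zero]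
            simp [eq_comm]
          · intro hx b
            have hx' : ¬ (x + 1 = 0) := hx
            show ((cf (y + 1).val).2 k)[(x + 1).val]? = some b ↔ ((cf y.val).2 k)[x.val]? = some b
            rw [hstep, hval x hx', hc]
            simp
          · intro k' hk b
            show ((cf (y + 1).val).2 k')[x.val]? = some b ↔ ((cf y.val).2 k')[x.val]? = some b
            rw [hstep, hc]
            simp [hk]
        | pop k f =>
          rw [hM] at hstep
          change cf (y + 1).val = (f (S' k).head?, Function.update S' k (S' k).tail) at hstep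
          refine ⟨?_, ?_, ?_, ?_⟩
          · intro hx t ht
            have hx' : x = 0 := hx
            show (cf (y + 1).val).1 = f t
            rw [hstep]
            show f (S' k).head? = f t
            congr 1
            have ht' : ∀ b, ((cf y.val).2 k)[x.val]? = some b ↔ t = some b := ht
            rw [hc, hx', ZMod.val_zero, ← List.head?_eq_getElem?] at ht'
            exact Option.ext ht'
          · intro hx b
            have hx' : ¬ (x + 1 = 0) := hx
            show ((cf (y + 1).val).2 k)[x.val]? = some b ↔ ((cf y.val).2 k)[(x + 1).val]? = some b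
            rw [hstep, hval x hx', hc]
            simp
          · intro hx b
            have hx' : x + 1 = 0 := hx
            show ¬ ((cf (y + 1).val).2 k)[x.val]? = some b
            rw [hstep]
            show ¬ (Function.update S' k (S' k).tail k)[x.val]? = some b
            rw [Function.update_self, List.getElem?_eq_none]
            · simp
            · rw [List.length_tail, hval0 x hx']
              have := hlen' k
              omega
          · intro k' hk b
            show ((cf (y + 1).val).2 k')[x.val]? = some b ↔ ((cf y.val).2 k')[x.val]? = some b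
            rw [hstep, hc]
            simp [hk]
        | peek k f =>
          rw [hM] at hstep
          change cf (y + 1).val = (f (S' k).head?, S') at hstep
          refine ⟨?_, ?_⟩
          · intro hx t ht
            have hx' : x = 0 := hx
            show (cf (y + 1).val).1 = f t
            rw [hstep]
            show f (S' k).head? = f t
            congr 1
            have ht' : ∀ b, ((cf y.val).2 k)[x.val]? = some b ↔ t = some b := ht
            rw [hc, hx', ZMod.val_zero, ← List.head?_eq_getElem?] at ht'
            exact Option.ext ht'
          · intro k' b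
            show ((cf (y + 1).val).2 k')[x.val]? = some b ↔ ((cf y.val).2 k')[x.val]? = some b
            rw [hstep, hc]
        | halt => exact absurd hM hh
  · have hv : ∀ i, i ≤ L → ((i : ℕ) : ZMod N).val = i := fun i hi => by
      rw [ZMod.val_natCast, Nat.mod_eq_of_lt (by omega)]
    constructor
    · show ((0 : ℕ) : ZMod N) = 0
      simp
    · show (0 : ZMod N) = 0
      rfl
    · show (cf (0 : ZMod N).val).1 = q₀
      rw [ZMod.val_zero]; rfl
    · intro i h1 h2 h3
      have h3' : (i : ZMod N) = 0 := h3
      have := hv i h2
      rw [h3', ZMod.val_zero] at this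
      omega
    · intro i hi k a
      show ((cf (0 : ZMod N).val).2 k)[((i : ℕ) : ZMod N).val]? = some a ↔ _
      rw [ZMod.val_zero, hv i hi]
      rfl

end

end Pool.Agent.Lib.MP_68c508_lc
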