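import Pool.Agent.Lib.MP_68c508_lc.Torus
import Pool.Agent.Lib.MP_68c508_lc.Rules

/-!
First-order sentences of group theory describing computations, and their meaning in groups.
-/

open FirstOrder FirstOrder.Language

namespace Pool.Agent.Lib.MP_68c508_lc

open Turing.PartrecToTM2 (K' Γ')

/-! ### the semantic statement -/

section sem
variable {Q : Type} {G : Type} [Group G]

/-- the colour `x` holds at the position `h` -/
def HoldsG (z x h : G) : Prop := x * (h * z * h⁻¹) ≠ (h * z * h⁻¹) * x

/-- There are parameters in the group `G` describing the computation with input `m`. -/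
def Sem (M : Q → Instr Q K' Γ') (q₀ : Q) (m : ℕ) (G : Type) [Group G] : Prop :=
  ∃ p z g₁ g₂ : G, ∃ C : Col Q K' Γ' → G,
    g₁ * g₂ = g₂ * g₁ ∧ g₁ * p = p * g₁ ∧ g₂ * p = p * g₂ ∧
    (∀ h, h * p = p * h → Rules M K'.main Γ'.bit1
      (fun c => HoldsG z (C c) h) (fun c => HoldsG z (C c) (g₁ * h))
      (fun c => HoldsG z (C c) (g₂ * h)) (fun c => HoldsG z (C c) (g₂ * (g₁ * h)))) ∧
    InitRow q₀ (input m) (m + 1) (fun i c => HoldsG z (C c) (g₁ ^ i))

theorem input_length (m : ℕ) (k : K') : (input m k).length ≤ m + 1 := by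
  cases k <;> simp [input, Turing.PartrecToTM2.K'.elim]

theorem sem_sound (M : Q → Instr Q K' Γ') (q₀ : Q) (m : ℕ) (h : Sem M q₀ m G) (T : ℕ)
    (hT : M (runI M (q₀, input m) T).1 = .halt) :
    ((runI M (q₀, input m) T).2 K'.main).head? ≠ some Γ'.bit1 := by
  obtain ⟨p, z, g₁, g₂, C, h12, h1p, h2p, hR, hI⟩ := h
  refine soundness M K'.main Γ'.bit1 q₀ (input m) (m + 1) (input_length m)
    (fun i j c => HoldsG z (C c) (g₁ ^ i * g₂ ^ j)) ?_ ?_ T hT
  · intro i j
    have hp : (g₁ ^ i * g₂ ^ j) * p = p * (g₁ ^ i * g₂ ^ j) :=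
      (((show Commute g₁ p from h1p).pow_left i).mul_left ((show Commute g₂ p from h2p).pow_left j))
    have e1 : g₁ * (g₁ ^ i * g₂ ^ j) = g₁ ^ (i + 1) * g₂ ^ j := by
      rw [← mul_assoc, pow_succ']
    have e2 : ∀ i, g₂ * (g₁ ^ i * g₂ ^ j) = g₁ ^ i * g₂ ^ (j + 1) := by
      intro i
      rw [← mul_assoc, ← ((show Commute g₁ g₂ from h12).pow_left i).eq, mul_assoc, ← pow_succ']
    have := hR _ hp
    rw [e1, e2, e2] at this
    exact this
  · simpa using hI

theorem sem_complete (hG : TorusRich G) (M : Q → Instr Q K' Γ') (q₀ : Q) (m T : ℕ)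
    (hT : M (runI M (q₀, input m) T).1 = .halt)
    (hT' : ((runI M (q₀, input m) T).2 K'.main).head? ≠ some Γ'.bit1) : Sem M q₀ m G := by
  obtain ⟨N, hN, p, z, g₁, g₂, h12, h1p, h2p, κ, hκ1, hκ2, hX⟩ := hG (m + 1 + T + 1)
  obtain ⟨C, hC1, hC2⟩ := completeness M K'.main Γ'.bit1 q₀ (input m) (m + 1) (input_length m)
    T hT hT' N hN
  choose x hx using fun c => hX (C c)
  have hx' : ∀ h c, h * p = p * h → (HoldsG z (x c) h ↔ κ h ∈ C c) := fun h c hh => hx c h hh
  have hm1 : ∀ h, h * p = p * h → (g₁ * h) * p = p * (g₁ * h) := fun h hh =>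
    (show Commute g₁ p from h1p).mul_left hh
  have hm2 : ∀ h, h * p = p * h → (g₂ * h) * p = p * (g₂ * h) := fun h hh =>
    (show Commute g₂ p from h2p).mul_left hh
  refine ⟨p, z, g₁, g₂, x, h12, h1p, h2p, fun h hh => ?_, ?_⟩
  · have h0 : (fun c => HoldsG z (x c) h) = fun c => κ h ∈ C c :=
      funext fun c => propext (hx' h c hh)
    have h1 : (fun c => HoldsG z (x c) (g₁ * h)) = fun c => κ h + (1, 0) ∈ C c :=
      funext fun c => propext (by rw [hx' _ c (hm1 h hh), (hκ2 h hh).1])
    have h2 : (fun c => HoldsG z (x c) (g₂ * h)) = fun c => κ h + (0, 1) ∈ C c :=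
      funext fun c => propext (by rw [hx' _ c (hm2 h hh), (hκ2 h hh).2])
    have h3 : (fun c => HoldsG z (x c) (g₂ * (g₁ * h))) =
        fun c => κ h + (1, 0) + (0, 1) ∈ C c :=
      funext fun c => propext (by
        rw [hx' _ c (hm2 _ (hm1 h hh)), (hκ2 _ (hm1 h hh)).2, (hκ2 h hh).1])
    rw [h0, h1, h2, h3]
    exact hC1 (κ h)
  · have hpi : ∀ i : ℕ, g₁ ^ i * p = p * g₁ ^ i := fun i =>
      (show Commute g₁ p from h1p).pow_left i
    have hκi : ∀ i : ℕ, κ (g₁ ^ i) = ((i : ZMod N), 0) := by
      intro i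
      induction i with
      | zero => rw [pow_zero, hκ1, Nat.cast_zero]; rfl
      | succ i ih => rw [pow_succ', (hκ2 _ (hpi i)).1, ih]; simp
    have : (fun (i : ℕ) c => HoldsG z (x c) (g₁ ^ i)) =
        fun (i : ℕ) c => (((i : ℕ) : ZMod N), (0 : ZMod N)) ∈ C c :=
      funext fun i => funext fun c => propext (by rw [hx' _ c (hpi i), hκi])
    rw [this]
    exact hC2

end sem

/-! ### terms and formulas -/

section syn
variable {k : ℕ}

/-- terms with bound variables `Fin k` only -/
abbrev Tm (k : ℕ) : Type := LG.Term (Empty ⊕ Fin k)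
/-- formulas with bound variables `Fin k` only -/
abbrev Fm (k : ℕ) : Type := LG.BoundedFormula Empty k

/-- variable -/
def tv (i : Fin k) : Tm k := .var (.inr i)
/-- product -/
def tmul (s t : Tm k) : Tm k := .func (GroupFunc.mul : LG.Functions 2) ![s, t]
/-- inverse -/
def tinv (t : Tm k) : Tm k := .func (GroupFunc.inv : LG.Functions 1) ![t]
/-- identity -/
def tone : Tm k := .func (GroupFunc.one : LG.Functions 0) ![]
/-- equation -/
def teq (s t : Tm k) : Fm k := .equal s t

variable {G : Type} [Group G] (v : Empty → G) (xs : Fin k → G)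

/-- value of a term -/
def tval (t : Tm k) : G := t.realize (Sum.elim v xs)

theorem tval_tv (i : Fin k) : tval v xs (tv i) = xs i := rfl
theorem tval_tmul (s t : Tm k) : tval v xs (tmul s t) = tval v xs s * tval v xs t := rfl
theorem tval_tinv (t : Tm k) : tval v xs (tinv t) = (tval v xs t)⁻¹ := rfl
theorem tval_tone : tval v xs (tone : Tm k) = 1 := rfl
theorem realize_teq (s t : Tm k) : (teq s t).Realize v xs ↔ tval v xs s = tval v xs t := Iff.rfl

/-- Goedel number of a term -/
def tn (t : Tm k) : ℕ := tnum Empty.elim t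
/-- Goedel number of a formula -/
def fn (φ : Fm k) : ℕ := fnum Empty.elim φ

theorem tn_tv (i : Fin k) : tn (tv i) = 4 * (i : ℕ) := rfl
theorem tn_tmul (s t : Tm k) : tn (tmul s t) = 4 * Nat.pair (tn s) (tn t) + 3 := rfl
theorem tn_tinv (t : Tm k) : tn (tinv t) = 4 * tn t + 2 := rfl
theorem tn_tone : tn (tone : Tm k) = 1 := rfl
theorem fn_teq (s t : Tm k) : fn (teq s t) = 3 * Nat.pair (tn s) (tn t) + 1 := rfl
theorem fn_imp (φ ψ : Fm k) : fn (φ.imp ψ) = 3 * Nat.pair (fn φ) (fn ψ) + 2 := rfl
theorem fn_falsum : fn (.falsum : Fm k) = 0 := rfl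
theorem fn_all (φ : Fm (k + 1)) : fn φ.all = 3 * fn φ + 3 := rfl
theorem fn_not (φ : Fm k) : fn φ.not = 3 * Nat.pair (fn φ) 0 + 2 := rfl
theorem fn_inf (φ ψ : Fm k) : fn (φ ⊓ ψ) =
    3 * Nat.pair (3 * Nat.pair (fn φ) (3 * Nat.pair (fn ψ) 0 + 2) + 2) 0 + 2 := rfl
theorem fn_sup (φ ψ : Fm k) : fn (φ ⊔ ψ) =
    3 * Nat.pair (3 * Nat.pair (fn φ) 0 + 2) (fn ψ) + 2 := rfl

/-- the colour `x` holds at `h` -/
def holdsF (z x h : Tm k) : Fm k :=
  (teq (tmul x (tmul (tmul h z) (tinv h))) (tmul (tmul (tmul h z) (tinv h)) x)).not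

theorem realize_holdsF (z x h : Tm k) : (holdsF z x h).Realize v xs ↔
    HoldsG (tval v xs z) (tval v xs x) (tval v xs h) := Iff.rfl

/-- an arbitrary condition on finitely many formulas, in disjunctive normal form -/
noncomputable def dnfF {ι : Type} [Finite ι] (R : (ι → Prop) → Prop) (φ : ι → Fm k) : Fm k :=
  BoundedFormula.iSup fun α : {α : ι → Bool // R fun i => α i = true} =>
    BoundedFormula.iInf fun i => cond (α.1 i) (φ i) (φ i).not

theorem realize_dnfF {ι : Type} [Finite ι] (R : (ι → Prop) → Prop) (φ : ι → Fm k) :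
    (dnfF R φ).Realize v xs ↔ R fun i => (φ i).Realize v xs := by
  classical
  unfold dnfF
  rw [BoundedFormula.realize_iSup]
  constructor
  · rintro ⟨⟨α, hα⟩, h⟩
    rw [BoundedFormula.realize_iInf] at h
    have : (fun i => (φ i).Realize v xs) = fun i => α i = true := by
      funext i
      have hi := h i
      cases hαi : α i with
      | true => simp only [hαi, cond_true] at hi; simp [hi]
      | false => simp only [hαi, cond_false, BoundedFormula.realize_not] at hi; simp [hi]
    rw [this]
    exact hα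
  · intro h
    have h2 : (fun i => decide ((φ i).Realize v xs) = true) = fun i => (φ i).Realize v xs := by
      funext i; simp
    refine ⟨⟨fun i => decide ((φ i).Realize v xs), ?_⟩, ?_⟩
    · rw [h2]; exact h
    · rw [BoundedFormula.realize_iInf]
      intro i
      by_cases hi : (φ i).Realize v xs
      · simp [hi]
      · simp [hi]

theorem primrec_not {φ : ℕ → Fm k} (h : Primrec fun i => fn (φ i)) :
    Primrec fun i => fn (φ i).not := by
  simp only [fn_not]
  exact Primrec.nat_add.comp (Primrec.nat_mul.comp (Primrec.const 3)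
    (Primrec₂.natPair.comp h (Primrec.const 0))) (Primrec.const 2)

theorem primrec_imp {φ ψ : ℕ → Fm k} (h : Primrec fun i => fn (φ i))
    (h' : Primrec fun i => fn (ψ i)) :
    Primrec fun i => fn ((φ i).imp (ψ i)) := by
  simp only [fn_imp]
  exact Primrec.nat_add.comp (Primrec.nat_mul.comp (Primrec.const 3)
    (Primrec₂.natPair.comp h h')) (Primrec.const 2)

theorem primrec_inf {φ ψ : ℕ → Fm k} (h : Primrec fun i => fn (φ i))
    (h' : Primrec fun i => fn (ψ i)) :
    Primrec fun i => fn (φ i ⊓ ψ i) :=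
  primrec_not (primrec_imp h (primrec_not h'))

theorem primrec_sup {φ ψ : ℕ → Fm k} (h : Primrec fun i => fn (φ i))
    (h' : Primrec fun i => fn (ψ i)) :
    Primrec fun i => fn (φ i ⊔ ψ i) :=
  primrec_imp (primrec_not h) h'

theorem primrec_foldr_inf {β : Type} (l : List β) {φ : ℕ → β → Fm k}
    (h : ∀ b, Primrec fun i => fn (φ i b)) :
    Primrec fun i => fn ((l.map (φ i)).foldr (· ⊓ ·) ⊤) := by
  induction l with
  | nil => exact Primrec.const (fn (⊤ : Fm k))
  | cons b l ih => exact primrec_inf (h b) ih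

theorem primrec_foldr_sup {β : Type} (l : List β) {φ : ℕ → β → Fm k}
    (h : ∀ b, Primrec fun i => fn (φ i b)) :
    Primrec fun i => fn ((l.map (φ i)).foldr (· ⊔ ·) ⊥) := by
  induction l with
  | nil => exact Primrec.const (fn (⊥ : Fm k))
  | cons b l ih => exact primrec_sup (h b) ih

theorem primrec_iInf {β : Type} [Finite β] {φ : ℕ → β → Fm k}
    (h : ∀ b, Primrec fun i => fn (φ i b)) :
    Primrec fun i => fn (BoundedFormula.iInf (φ i)) :=
  primrec_foldr_inf _ h

theorem primrec_iSup {β : Type} [Finite β] {φ : ℕ → β → Fm k}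
    (h : ∀ b, Primrec fun i => fn (φ i b)) :
    Primrec fun i => fn (BoundedFormula.iSup (φ i)) :=
  primrec_foldr_sup _ h

theorem primrec_dnfF {ι : Type} [Finite ι] (R : (ι → Prop) → Prop) {φ : ℕ → ι → Fm k}
    (h : ∀ b, Primrec fun i => fn (φ i b)) :
    Primrec fun i => fn (dnfF R (φ i)) := by
  unfold dnfF
  refine primrec_iSup fun α => primrec_iInf fun j => ?_
  cases α.1 j with
  | true => exact h j
  | false => exact primrec_not (h j)

theorem primrec_tmul {s t : ℕ → Tm k} (hs : Primrec fun i => tn (s i))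
    (ht : Primrec fun i => tn (t i)) : Primrec fun i => tn (tmul (s i) (t i)) := by
  simp only [tn_tmul]
  exact Primrec.nat_add.comp (Primrec.nat_mul.comp (Primrec.const 4)
    (Primrec₂.natPair.comp hs ht)) (Primrec.const 3)

theorem primrec_tinv {t : ℕ → Tm k}
    (ht : Primrec fun i => tn (t i)) : Primrec fun i => tn (tinv (t i)) := by
  simp only [tn_tinv]
  exact Primrec.nat_add.comp (Primrec.nat_mul.comp (Primrec.const 4) ht) (Primrec.const 2)

theorem primrec_teq {s t : ℕ → Tm k} (hs : Primrec fun i => tn (s i))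
    (ht : Primrec fun i => tn (t i)) : Primrec fun i => fn (teq (s i) (t i)) := by
  simp only [fn_teq]
  exact Primrec.nat_add.comp (Primrec.nat_mul.comp (Primrec.const 3)
    (Primrec₂.natPair.comp hs ht)) (Primrec.const 1)

theorem primrec_holdsF (z x : Tm k) {h : ℕ → Tm k} (hh : Primrec fun i => tn (h i)) :
    Primrec fun i => fn (holdsF z x (h i)) := by
  unfold holdsF
  have hc : Primrec fun i => tn (tmul (tmul (h i) z) (tinv (h i))) :=
    primrec_tmul (primrec_tmul hh (Primrec.const _)) (primrec_tinv hh)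
  exact primrec_not (primrec_teq (primrec_tmul (Primrec.const _) hc)
    (primrec_tmul hc (Primrec.const _)))

end syn

/-! ### the sentences -/

section sentences
variable {Q : Type} [Fintype Q]

/-- names of the parameters -/
abbrev Par (Q : Type) : Type := Fin 4 ⊕ Col Q K' Γ'

instance : Finite K' := by
  refine Finite.of_injective (β := Fin 4)
    (fun k => match k with | .main => 0 | .rev => 1 | .aux => 2 | .stack => 3) ?_
  intro k k' h
  cases k <;> cases k' <;> first | rfl | exact absurd h (by decide)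

instance : Finite (Par Q) := inferInstance

variable {n : ℕ} (ε : Par Q ≃ Fin n)

/-- the term for the position number `i` in the first row -/
def posT (i : ℕ) : Tm n :=
  match i with
  | 0 => tone
  | i + 1 => tmul (tv (ε (.inl 2))) (posT i)

omit [Fintype Q] in
theorem posT_val {G : Type} [Group G] (v : Empty → G) (xs : Fin n → G) (i : ℕ) :
    tval v xs (posT ε i) = xs (ε (.inl 2)) ^ i := by
  induction i with
  | zero => rw [pow_zero]; rfl
  | succ i ih => rw [pow_succ', ← ih]; rfl

omit [Fintype Q] in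
theorem primrec_posT : Primrec fun i => tn (posT ε i) := by
  have : (fun i => tn (posT ε i)) = fun i => Nat.rec (motive := fun _ => ℕ) 1
      (fun _ y => 4 * Nat.pair (4 * (ε (.inl 2) : ℕ)) y + 3) i := by
    funext i
    induction i with
    | zero => rfl
    | succ i ih => show 4 * Nat.pair _ (tn (posT ε i)) + 3 = _; rw [ih]; rfl
  rw [this]
  refine Primrec.nat_rec₁ 1 ?_
  exact Primrec.nat_add.comp (Primrec.nat_mul.comp (Primrec.const 4)
    (Primrec₂.natPair.comp (Primrec.const _) Primrec.snd)) (Primrec.const 3)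

/-- the colours at the position `i` of the first row -/
def atF (i : ℕ) (c : Col Q K' Γ') : Fm n := holdsF (tv (ε (.inl 1))) (tv (ε (.inr c))) (posT ε i)

omit [Fintype Q] in
theorem primrec_atF (c : Col Q K' Γ') : Primrec fun i => fn (atF ε i c) :=
  primrec_holdsF _ _ (primrec_posT ε)

/-- the cell contains `t` on the stack `main` and nothing else -/
def CellIs (t : Option Γ') (r : Col Q K' Γ' → Prop) : Prop :=
  ∀ k a, r (sym k a) ↔ (k = K'.main ∧ t = some a)

/-- first part of the initial condition -/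
noncomputable def baseF (q₀ : Q) : Fm n :=
  dnfF (fun r : Col Q K' Γ' → Prop => r lam ∧ r rho ∧ r (lab q₀)) (atF ε 0)

/-- the condition for the letters of the word -/
noncomputable def wordF (ε : Par Q ≃ Fin n) : ℕ → Fm n
  | 0 => ⊤
  | i + 1 => wordF ε i ⊓ (dnfF (CellIs (some Γ'.bit1)) (atF ε i) ⊓ (atF ε (i + 1) lam).not)

/-- the initial condition -/
noncomputable def initF (q₀ : Q) (m : ℕ) : Fm n :=
  baseF ε q₀ ⊓ (wordF ε m ⊓ (dnfF (CellIs (some Γ'.cons)) (atF ε m) ⊓
    (dnfF (CellIs none) (atF ε (m + 1)) ⊓ (atF ε (m + 1) lam).not)))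

/-- commutation relations -/
def commF : Fm n :=
  teq (tmul (tv (ε (.inl 2))) (tv (ε (.inl 3)))) (tmul (tv (ε (.inl 3))) (tv (ε (.inl 2)))) ⊓
  (teq (tmul (tv (ε (.inl 2))) (tv (ε (.inl 0)))) (tmul (tv (ε (.inl 0))) (tv (ε (.inl 2)))) ⊓
  teq (tmul (tv (ε (.inl 3))) (tv (ε (.inl 0)))) (tmul (tv (ε (.inl 0))) (tv (ε (.inl 3)))))

/-- parameter in the scope of one more quantifier -/
def tvs (x : Par Q) : Tm (n + 1) := tv (Fin.castSucc (ε x))

/-- the four positions -/
def nbT (h : Tm (n + 1)) (j : Fin 4) : Tm (n + 1) :=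
  match j with
  | 0 => h
  | 1 => tmul (tvs ε (.inl 2)) h
  | 2 => tmul (tvs ε (.inl 3)) h
  | 3 => tmul (tvs ε (.inl 3)) (tmul (tvs ε (.inl 2)) h)

/-- the local rules -/
noncomputable def rulesF (M : Q → Instr Q K' Γ') : Fm n :=
  ((teq (tmul (tv (Fin.last n)) (tvs ε (.inl 0))) (tmul (tvs ε (.inl 0)) (tv (Fin.last n)))).imp
    (dnfF (fun F : Col Q K' Γ' × Fin 4 → Prop => Rules M K'.main Γ'.bit1
      (fun c => F (c, 0)) (fun c => F (c, 1)) (fun c => F (c, 2)) (fun c => F (c, 3)))
      (fun cj => holdsF (tvs ε (.inl 1)) (tvs ε (.inr cj.1)) (nbT ε (tv (Fin.last n)) cj.2)))).all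

/-- the sentence -/
noncomputable def sentF (M : Q → Instr Q K' Γ') (q₀ : Q) (m : ℕ) : LG.Sentence :=
  (commF ε ⊓ (rulesF ε M ⊓ initF ε q₀ m)).exs

theorem realize_rulesF (M : Q → Instr Q K' Γ') {G : Type} [Group G] (v : Empty → G)
    (xs : Fin n → G) :
    (rulesF ε M).Realize v xs ↔ ∀ h, h * xs (ε (.inl 0)) = xs (ε (.inl 0)) * h →
      Rules M K'.main Γ'.bit1
      (fun c => HoldsG (xs (ε (.inl 1))) (xs (ε (.inr c))) h)
      (fun c => HoldsG (xs (ε (.inl 1))) (xs (ε (.inr c))) (xs (ε (.inl 2)) * h))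
      (fun c => HoldsG (xs (ε (.inl 1))) (xs (ε (.inr c))) (xs (ε (.inl 3)) * h))
      (fun c => HoldsG (xs (ε (.inl 1))) (xs (ε (.inr c)))
        (xs (ε (.inl 3)) * (xs (ε (.inl 2)) * h))) := by
  unfold rulesF
  rw [BoundedFormula.realize_all]
  refine forall_congr' fun h => ?_
  rw [BoundedFormula.realize_imp, realize_dnfF, realize_teq]
  have e1 : ∀ x, tval v (Fin.snoc xs h : Fin (n + 1) → G) (tvs ε x) = xs (ε x) := fun x => by
    unfold tvs
    rw [tval_tv, Fin.snoc_castSucc (α := fun _ => G)]
  have e2 : tval v (Fin.snoc xs h : Fin (n + 1) → G) (tv (Fin.last n)) = h := by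
    rw [tval_tv, Fin.snoc_last (α := fun _ => G)]
  simp only [realize_holdsF, nbT, tval_tmul, e1, e2]

theorem realize_wordF {G : Type} [Group G] (v : Empty → G) (xs : Fin n → G) (m : ℕ) :
    (wordF ε m).Realize v xs ↔ ∀ i < m,
      CellIs (some Γ'.bit1) (fun c => HoldsG (xs (ε (.inl 1))) (xs (ε (.inr c)))
        (xs (ε (.inl 2)) ^ i)) ∧
      ¬ HoldsG (xs (ε (.inl 1))) (xs (ε (.inr lam))) (xs (ε (.inl 2)) ^ (i + 1)) := by
  induction m with
  | zero => simp [wordF]
  | succ m ih =>
    rw [wordF, BoundedFormula.realize_inf, BoundedFormula.realize_inf, ih, realize_dnfF,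
      BoundedFormula.realize_not]
    simp only [atF, realize_holdsF, posT_val, tval_tv]
    rw [Nat.forall_lt_succ_right]

theorem input_cell (m i : ℕ) (hi : i ≤ m + 1) (k : K') (a : Γ') :
    (input m k)[i]? = some a ↔ (k = K'.main ∧
      (if i < m then some Γ'.bit1 else if i = m then some Γ'.cons else none) = some a) := by
  cases k with
  | main =>
    show (List.replicate m Γ'.bit1 ++ [Γ'.cons])[i]? = some a ↔ _
    by_cases h1 : i < m
    · rw [List.getElem?_append_left (by simpa using h1), List.getElem?_replicate, if_pos h1,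
        if_pos h1]
      simp
    · rw [if_neg h1]
      by_cases h2 : i = m
      · subst h2
        rw [if_pos rfl, List.getElem?_append_right (by simp)]
        simp
      · rw [if_neg h2, List.getElem?_eq_none]
        · simp
        · simp; omega
  | rev => simp [input, Turing.PartrecToTM2.K'.elim]
  | aux => simp [input, Turing.PartrecToTM2.K'.elim]
  | stack => simp [input, Turing.PartrecToTM2.K'.elim]

omit [Fintype Q] in
theorem initRow_iff (q₀ : Q) (m : ℕ) (row : ℕ → Col Q K' Γ' → Prop) :
    InitRow q₀ (input m) (m + 1) row ↔ (row 0 lam ∧ row 0 rho ∧ row 0 (lab q₀)) ∧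
      (∀ i < m, CellIs (some Γ'.bit1) (row i) ∧ ¬ row (i + 1) lam) ∧
      CellIs (some Γ'.cons) (row m) ∧ CellIs none (row (m + 1)) ∧ ¬ row (m + 1) lam := by
  constructor
  · intro h
    refine ⟨⟨h.hlam, h.hrho, h.hlab⟩, fun i hi => ⟨fun k a => ?_, ?_⟩, fun k a => ?_,
      fun k a => ?_, ?_⟩
    · rw [h.hsym i (by omega), input_cell m i (by omega), if_pos hi]
    · exact h.hnl (i + 1) (by omega) (by omega)
    · rw [h.hsym m (by omega), input_cell m m (by omega), if_neg (lt_irrefl m), if_pos rfl]
    · rw [h.hsym (m + 1) (by omega), input_cell m (m + 1) (by omega), if_neg (by omega),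
        if_neg (by omega)]
    · exact h.hnl (m + 1) (by omega) le_rfl
  · rintro ⟨⟨h1, h2, h3⟩, h4, h5, h6, h7⟩
    refine ⟨h1, h2, h3, fun i hi1 hi2 => ?_, fun i hi k a => ?_⟩
    · rcases Nat.lt_or_ge i (m + 1) with h | h
      · have := (h4 (i - 1) (by omega)).2
        rwa [Nat.sub_add_cancel hi1] at this
      · have : i = m + 1 := by omega
        rw [this]; exact h7
    · rw [input_cell m i hi]
      by_cases c1 : i < m
      · rw [if_pos c1]; exact (h4 i c1).1 k a
      · rw [if_neg c1]
        by_cases c2 : i = m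
        · rw [if_pos c2, c2]; exact h5 k a
        · rw [if_neg c2]
          have : i = m + 1 := by omega
          rw [this]; exact h6 k a

theorem realize_initF (q₀ : Q) {G : Type} [Group G] (v : Empty → G) (xs : Fin n → G) (m : ℕ) :
    (initF ε q₀ m).Realize v xs ↔ InitRow q₀ (input m) (m + 1)
      (fun i c => HoldsG (xs (ε (.inl 1))) (xs (ε (.inr c))) (xs (ε (.inl 2)) ^ i)) := by
  rw [initRow_iff]
  unfold initF baseF
  simp only [BoundedFormula.realize_inf, BoundedFormula.realize_not, realize_dnfF,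
    realize_wordF, atF, realize_holdsF, posT_val, tval_tv]

theorem realize_sentF (M : Q → Instr Q K' Γ') (q₀ : Q) (m : ℕ) {G : Type} [Group G] :
    G ⊨ sentF ε M q₀ m ↔ Sem M q₀ m G := by
  unfold sentF
  show (BoundedFormula.exs _).Realize _ ↔ _
  rw [BoundedFormula.realize_exs]
  simp only [BoundedFormula.realize_inf, realize_initF, realize_rulesF, commF, realize_teq,
    tval_tmul, tval_tv]
  constructor
  · rintro ⟨xs, ⟨h1, h2, h3⟩, h4, h5⟩
    exact ⟨xs (ε (.inl 0)), xs (ε (.inl 1)), xs (ε (.inl 2)), xs (ε (.inl 3)),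
      fun c => xs (ε (.inr c)), h1, h2, h3, h4, h5⟩
  · rintro ⟨p, z, g₁, g₂, C, h1, h2, h3, h4, h5⟩
    refine ⟨fun i => Sum.elim ![p, z, g₁, g₂] C (ε.symm i), ?_⟩
    simp only [Equiv.symm_apply_apply, Sum.elim_inl, Sum.elim_inr]
    exact ⟨⟨h1, h2, h3⟩, h4, h5⟩

theorem primrec_wordF : Primrec fun i => fn (wordF ε i) := by
  have hg : Primrec fun i => fn (dnfF (CellIs (some Γ'.bit1)) (atF ε i) ⊓
      (atF ε (i + 1) lam).not) :=
    primrec_inf (primrec_dnfF _ fun c => primrec_atF ε c)
      (primrec_not ((primrec_atF ε lam).comp Primrec.succ))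
  have : (fun i => fn (wordF ε i)) = fun i => Nat.rec (motive := fun _ => ℕ)
      (fn (⊤ : Fm n))
      (fun i y => 3 * Nat.pair (3 * Nat.pair y (3 * Nat.pair (fn (dnfF (CellIs (some Γ'.bit1))
        (atF ε i) ⊓ (atF ε (i + 1) lam).not)) 0 + 2) + 2) 0 + 2) i := by
    funext i
    induction i with
    | zero => rfl
    | succ i ih =>
      show 3 * Nat.pair (3 * Nat.pair (fn (wordF ε i)) _ + 2) 0 + 2 = _
      rw [ih]
      rfl
  rw [this]
  refine Primrec.nat_rec₁ _ ?_
  have e1 : ∀ {f : ℕ × ℕ → ℕ} (c d : ℕ), Primrec f → Primrec fun x => c * f x + d :=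
    fun c d hf => Primrec.nat_add.comp (Primrec.nat_mul.comp (Primrec.const c) hf)
      (Primrec.const d)
  refine e1 3 2 (Primrec₂.natPair.comp (e1 3 2 (Primrec₂.natPair.comp Primrec.snd
    (e1 3 2 (Primrec₂.natPair.comp (hg.comp Primrec.fst) (Primrec.const 0))))) (Primrec.const 0))

theorem primrec_initF (q₀ : Q) : Primrec fun m => fn (initF ε q₀ m) := by
  unfold initF
  refine primrec_inf (Primrec.const _) (primrec_inf (primrec_wordF ε) (primrec_inf
    (primrec_dnfF _ fun c => primrec_atF ε c) (primrec_inf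
    (primrec_dnfF _ fun c => (primrec_atF ε c).comp Primrec.succ)
    (primrec_not ((primrec_atF ε lam).comp Primrec.succ)))))

theorem primrec_exs {k : ℕ} {φ : ℕ → Fm k} (h : Primrec fun i => fn (φ i)) :
    Primrec fun i => fn (k := 0) (φ i).exs := by
  induction k with
  | zero => exact h
  | succ k ih =>
    apply ih
    have h1 : Primrec fun i => fn (φ i).not := primrec_not h
    have h2 : Primrec fun i => fn (φ i).not.all := by
      simp only [fn_all]
      exact Primrec.nat_add.comp (Primrec.nat_mul.comp (Primrec.const 3) h1) (Primrec.const 3)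
    exact primrec_not h2

theorem primrec_sentF (M : Q → Instr Q K' Γ') (q₀ : Q) :
    Primrec fun m => fnum Empty.elim (sentF ε M q₀ m) := by
  unfold sentF
  exact primrec_exs (primrec_inf (Primrec.const _) (primrec_inf (Primrec.const _)
    (primrec_initF ε q₀)))

end sentences

/-! ### Goedel numbers determine sentences -/

theorem tnum_inj {k : ℕ} (s t : Tm k) (h : tnum Empty.elim s = tnum Empty.elim t) : s = t := by
  induction s generalizing t with
  | var x =>
    rcases x with x | i
    · exact x.elim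
    · have hx : tnum Empty.elim (Term.var (Sum.inr i) : Tm k) = 4 * (i : ℕ) := rfl
      rw [hx] at h
      cases t with
      | var y =>
        rcases y with y | j
        · exact y.elim
        · have hy : tnum Empty.elim (Term.var (Sum.inr j) : Tm k) = 4 * (j : ℕ) := rfl
          rw [hy] at h
          congr 2
          exact Fin.ext (by omega)
      | func f ts =>
        cases f with
        | one =>
          change 4 * (i : ℕ) = 1 at h
          omega
        | inv =>
          change 4 * (i : ℕ) = 4 * tnum _ _ + 2 at h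
          omega
        | mul =>
          change 4 * (i : ℕ) = 4 * Nat.pair _ _ + 3 at h
          omega
  | func f ss ih =>
    cases f with
    | one =>
      change 1 = _ at h
      cases t with
      | var y =>
        rcases y with y | j
        · exact y.elim
        · change 1 = 4 * (j : ℕ) at h
          omega
      | func f ts =>
        cases f with
        | one => congr 1; funext i; exact i.elim0
        | inv =>
          change 1 = 4 * tnum _ _ + 2 at h
          omega
        | mul =>
          change 1 = 4 * Nat.pair _ _ + 3 at h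
          omega
    | inv =>
      change 4 * tnum _ (ss 0) + 2 = _ at h
      cases t with
      | var y =>
        rcases y with y | j
        · exact y.elim
        · change _ = 4 * (j : ℕ) at h
          omega
      | func f ts =>
        cases f with
        | one =>
          change _ = 1 at h
          omega
        | inv =>
          change _ = 4 * tnum _ (ts 0) + 2 at h
          congr 1
          funext i
          have : i = 0 := Subsingleton.elim _ _
          subst this
          exact ih 0 (ts 0) (by omega)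
        | mul =>
          change _ = 4 * Nat.pair _ _ + 3 at h
          omega
    | mul =>
      change 4 * Nat.pair (tnum _ (ss 0)) (tnum _ (ss 1)) + 3 = _ at h
      cases t with
      | var y =>
        rcases y with y | j
        · exact y.elim
        · change _ = 4 * (j : ℕ) at h
          omega
      | func f ts =>
        cases f with
        | one =>
          change _ = 1 at h
          omega
        | inv =>
          change _ = 4 * tnum _ (ts 0) + 2 at h
          omega
        | mul =>
          change _ = 4 * Nat.pair (tnum _ (ts 0)) (tnum _ (ts 1)) + 3 at h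
          have h1 : Nat.pair (tnum Empty.elim (ss 0)) (tnum Empty.elim (ss 1)) =
            Nat.pair (tnum Empty.elim (ts 0)) (tnum Empty.elim (ts 1)) := by omega
          rw [Nat.pair_eq_pair] at h1
          congr 1
          funext i
          match i with
          | 0 => exact ih 0 (ts 0) h1.1
          | 1 => exact ih 1 (ts 1) h1.2

theorem fnum_inj {k : ℕ} (φ ψ : Fm k) (h : fnum Empty.elim φ = fnum Empty.elim ψ) : φ = ψ := by
  induction φ with
  | falsum =>
    change 0 = _ at h
    cases ψ with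
    | falsum => rfl
    | equal t₁ t₂ => change 0 = 3 * Nat.pair _ _ + 1 at h; omega
    | rel R _ => exact Empty.elim R
    | imp f g => change 0 = 3 * Nat.pair _ _ + 2 at h; omega
    | all f => change 0 = 3 * fnum _ f + 3 at h; omega
  | equal t₁ t₂ =>
    change 3 * Nat.pair (tnum _ t₁) (tnum _ t₂) + 1 = _ at h
    cases ψ with
    | falsum => change _ = 0 at h; omega
    | equal t₁' t₂' =>
      change _ = 3 * Nat.pair (tnum _ t₁') (tnum _ t₂') + 1 at h
      have h1 : Nat.pair (tnum Empty.elim t₁) (tnum Empty.elim t₂) =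
        Nat.pair (tnum Empty.elim t₁') (tnum Empty.elim t₂') := by omega
      rw [Nat.pair_eq_pair] at h1
      rw [tnum_inj _ _ h1.1, tnum_inj _ _ h1.2]
    | rel R _ => exact Empty.elim R
    | imp f g => change _ = 3 * Nat.pair _ _ + 2 at h; omega
    | all f => change _ = 3 * fnum _ f + 3 at h; omega
  | rel R _ => exact Empty.elim R
  | imp f g ihf ihg =>
    change 3 * Nat.pair (fnum _ f) (fnum _ g) + 2 = _ at h
    cases ψ with
    | falsum => change _ = 0 at h; omega
    | equal t₁' t₂' => change _ = 3 * Nat.pair _ _ + 1 at h; omega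
    | rel R _ => exact Empty.elim R
    | imp f' g' =>
      change _ = 3 * Nat.pair (fnum _ f') (fnum _ g') + 2 at h
      have h1 : Nat.pair (fnum Empty.elim f) (fnum Empty.elim g) =
        Nat.pair (fnum Empty.elim f') (fnum Empty.elim g') := by omega
      rw [Nat.pair_eq_pair] at h1
      rw [ihf _ h1.1, ihg _ h1.2]
    | all f => change _ = 3 * fnum _ f + 3 at h; omega
  | all f ihf =>
    change 3 * fnum _ f + 3 = _ at h
    cases ψ with
    | falsum => change _ = 0 at h; omega
    | equal t₁' t₂' => change _ = 3 * Nat.pair _ _ + 1 at h; omega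
    | rel R _ => exact Empty.elim R
    | imp f' g' => change _ = 3 * Nat.pair _ _ + 2 at h; omega
    | all f' =>
      change _ = 3 * fnum _ f' + 3 at h
      rw [ihf f' (by omega)]

/-! ### undecidability -/

theorem undecidable_of_torusRich (G : Type) [Group G] (hG : TorusRich G) :
    ¬ DecidableElementaryTheory G := by
  rintro ⟨f, hf, hfφ⟩
  obtain ⟨Q, _, M, q₀, hM⟩ := exists_machine
  obtain ⟨n, ⟨ε⟩⟩ := Finite.exists_equiv_fin (Par Q)
  have h1 : ComputablePred fun m : ℕ => Sem M q₀ m G := by
    choose r hr hr' using fun m => hfφ (sentF ε M q₀ m)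
    have h2 : Partrec fun m => f (fnum Empty.elim (sentF ε M q₀ m)) :=
      hf.comp (primrec_sentF ε M q₀).to_comp
    have h3 : Computable r := h2.of_eq fun m => Part.eq_some_iff.2 (hr m)
    refine (ComputablePred.computable_iff.2 ⟨r, h3, rfl⟩ :
      ComputablePred fun m => (r m : Prop)).of_eq fun m => ?_
    rw [hr' m, realize_sentF]
  rcases hM _ h1 with ⟨m, T, h2, h3, h4⟩ | ⟨m, T, h2, h3, h4⟩
  · exact sem_sound M q₀ m h2 T h3 h4
  · exact h2 (sem_complete hG M q₀ m T h3 h4)

end Pool.Agent.Lib.MP_68c508_lc
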