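import Mathlib

/-!
A stack machine with finitely many states whose two kinds of halting computations are
recursively inseparable.
-/

namespace Pool.Agent.Lib.MP_68c508_lc

/-! ### stack machines -/

/-- instructions of a stack machine with states `Q`, stacks `K` and stack symbols `Γ` -/
inductive Instr (Q K Γ : Type) : Type
  | push (k : K) (a : Γ) (q : Q) : Instr Q K Γ
  | pop (k : K) (f : Option Γ → Q) : Instr Q K Γ
  | peek (k : K) (f : Option Γ → Q) : Instr Q K Γ
  | halt : Instr Q K Γ

/-- renaming of the states in an instruction -/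
def Instr.map {Q Q' K Γ : Type} (φ : Q → Q') : Instr Q K Γ → Instr Q' K Γ
  | .push k a q => .push k a (φ q)
  | .pop k f => .pop k (fun t => φ (f t))
  | .peek k f => .peek k (fun t => φ (f t))
  | .halt => .halt

section
variable {Q Q' K Γ : Type} [DecidableEq K]

/-- effect of an instruction -/
def act (q : Q) (S : K → List Γ) : Instr Q K Γ → Q × (K → List Γ)
  | .push k a q' => (q', Function.update S k (a :: S k))
  | .pop k f => (f (S k).head?, Function.update S k (S k).tail)
  | .peek k f => (f (S k).head?, S)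
  | .halt => (q, S)

/-- one step of a stack machine; a halted machine does not move -/
def stepI (M : Q → Instr Q K Γ) (c : Q × (K → List Γ)) : Q × (K → List Γ) :=
  act c.1 c.2 (M c.1)

/-- the configuration at time `j` -/
def runI (M : Q → Instr Q K Γ) (c : Q × (K → List Γ)) (j : ℕ) : Q × (K → List Γ) :=
  (stepI M)^[j] c

theorem runI_zero (M : Q → Instr Q K Γ) (c) : runI M c 0 = c := rfl

theorem runI_succ (M : Q → Instr Q K Γ) (c) (j : ℕ) :
    runI M c (j + 1) = stepI M (runI M c j) := Function.iterate_succ_apply' _ _ _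

theorem runI_add (M : Q → Instr Q K Γ) (c) (i j : ℕ) :
    runI M c (i + j) = runI M (runI M c i) j := by
  unfold runI
  rw [Nat.add_comm, Function.iterate_add_apply]

theorem stepI_map (M : Q → Instr Q K Γ) (M' : Q' → Instr Q' K Γ) (φ : Q → Q') (q : Q)
    (h : M' (φ q) = (M q).map φ) (S : K → List Γ) :
    stepI M' (φ q, S) = (φ (stepI M (q, S)).1, (stepI M (q, S)).2) := by
  unfold stepI
  rw [h]
  cases hM : M q <;> simp [Instr.map, act]

theorem runI_halt (M : Q → Instr Q K Γ) (c) (i j : ℕ) (hij : i ≤ j)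
    (h : M (runI M c i).1 = .halt) : runI M c j = runI M c i := by
  obtain ⟨k, rfl⟩ := Nat.exists_eq_add_of_le hij
  induction k with
  | zero => rfl
  | succ k ih =>
    rw [← Nat.add_assoc, runI_succ, ih (by omega)]
    unfold stepI
    rw [h]
    rfl

end

/-! ### micro steps of Mathlib's stack machines -/

section
open Turing Turing.TM2
variable {K Γ Λ σ : Type} [DecidableEq K] [Inhabited K]

/-- the machine executing the statements of a `TM2` machine one after the other -/
def micro (tr : Λ → Stmt (fun _ : K => Γ) Λ σ) :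
    Stmt (fun _ : K => Γ) Λ σ × σ → Instr (Stmt (fun _ : K => Γ) Λ σ × σ) K Γ
  | (.push k f q, v) => .push k (f v) (q, v)
  | (.peek k f q, v) => .peek k (fun t => (q, f v t))
  | (.pop k f q, v) => .pop k (fun t => (q, f v t))
  | (.load a q, v) => .peek default (fun _ => (q, a v))
  | (.branch f q₁ q₂, v) => .peek default (fun _ => (cond (f v) q₁ q₂, v))
  | (.goto l, v) => .peek default (fun _ => (tr (l v), v))
  | (.halt, _) => .halt

/-- the configuration of the micro step machine belonging to a configuration of the `TM2`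
machine -/
def enc (tr : Λ → Stmt (fun _ : K => Γ) Λ σ) (c : Cfg (fun _ : K => Γ) Λ σ) :
    (Stmt (fun _ : K => Γ) Λ σ × σ) × (K → List Γ) :=
  ((match c.l with
    | some l => tr l
    | none => .halt, c.var), c.stk)

theorem micro_stepAux (tr : Λ → Stmt (fun _ : K => Γ) Λ σ) (s : Stmt (fun _ : K => Γ) Λ σ) :
    ∀ (v : σ) (S : K → List Γ), ∃ n, runI (micro tr) ((s, v), S) n = enc tr (stepAux s v S) := by
  induction s with
  | push k f q ih =>
    intro v S
    obtain ⟨n, hn⟩ := ih v (Function.update S k (f v :: S k))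
    exact ⟨1 + n, by rw [runI_add]; exact hn⟩
  | peek k f q ih =>
    intro v S
    obtain ⟨n, hn⟩ := ih (f v (S k).head?) S
    exact ⟨1 + n, by rw [runI_add]; exact hn⟩
  | pop k f q ih =>
    intro v S
    obtain ⟨n, hn⟩ := ih (f v (S k).head?) (Function.update S k (S k).tail)
    exact ⟨1 + n, by rw [runI_add]; exact hn⟩
  | load a q ih =>
    intro v S
    obtain ⟨n, hn⟩ := ih (a v) S
    exact ⟨1 + n, by rw [runI_add]; exact hn⟩
  | branch f q₁ q₂ ih₁ ih₂ =>
    intro v S
    cases hf : f v with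
    | false =>
      obtain ⟨n, hn⟩ := ih₂ v S
      refine ⟨1 + n, ?_⟩
      rw [runI_add, stepAux, hf]
      have : runI (micro tr) ((Stmt.branch f q₁ q₂, v), S) 1 = ((q₂, v), S) := by
        show ((cond (f v) q₁ q₂, v), S) = _
        rw [hf]; rfl
      rw [this]; exact hn
    | true =>
      obtain ⟨n, hn⟩ := ih₁ v S
      refine ⟨1 + n, ?_⟩
      rw [runI_add, stepAux, hf]
      have : runI (micro tr) ((Stmt.branch f q₁ q₂, v), S) 1 = ((q₁, v), S) := by
        show ((cond (f v) q₁ q₂, v), S) = _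
        rw [hf]; rfl
      rw [this]; exact hn
  | goto l =>
    intro v S
    exact ⟨1, rfl⟩
  | halt =>
    intro v S
    exact ⟨0, rfl⟩

theorem micro_reaches (tr : Λ → Stmt (fun _ : K => Γ) Λ σ) {c c' : Cfg (fun _ : K => Γ) Λ σ}
    (h : StateTransition.Reaches (TM2.step tr) c c') :
    ∃ n, runI (micro tr) (enc tr c) n = enc tr c' := by
  induction h with
  | refl => exact ⟨0, rfl⟩
  | @tail c₁ c₂ _ h₂ ih =>
    obtain ⟨n, hn⟩ := ih
    rcases c₁ with ⟨_ | l, v, S⟩
    · exact absurd h₂ (by simp)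
    · obtain ⟨n', hn'⟩ := micro_stepAux tr (tr l) v S
      have h3 : c₂ = stepAux (tr l) v S := by
        have : some (stepAux (tr l) v S) = some c₂ := h₂
        exact (Option.some.inj this).symm
      refine ⟨n + n', ?_⟩
      rw [runI_add, hn, h3, ← hn']
      rfl

/-! ### restriction to a finite set of states -/

/-- the targets of an instruction lie in `F` -/
def Instr.Into {Q K Γ : Type} (F : Q → Prop) : Instr Q K Γ → Prop
  | .push _ _ q => F q
  | .pop _ f => ∀ t, F (f t)
  | .peek _ f => ∀ t, F (f t)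
  | .halt => True

omit [Inhabited K] in
theorem stepI_into {Q : Type} {F : Q → Prop} {M : Q → Instr Q K Γ} {q : Q}
    (hq : F q) (h : (M q).Into F) (S : K → List Γ) : F (stepI M (q, S)).1 := by
  unfold stepI
  cases hM : M q with
  | push k a q' => rw [hM] at h; exact h
  | pop k f => rw [hM] at h; exact h _
  | peek k f => rw [hM] at h; exact h _
  | halt => exact hq

omit [Inhabited K] in
theorem restrict {Q : Type} (F : Finset Q) (M : Q → Instr Q K Γ)
    (hF : ∀ q ∈ F, (M q).Into (· ∈ F)) (q₀ : F) :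
    ∃ M' : F → Instr F K Γ, ∀ (S : K → List Γ) (j : ℕ),
      ((runI M' (q₀, S) j).1 : Q) = (runI M (q₀.1, S) j).1 ∧
      (runI M' (q₀, S) j).2 = (runI M (q₀.1, S) j).2 ∧
      (M' (runI M' (q₀, S) j).1 = .halt ↔ M (runI M (q₀.1, S) j).1 = .halt) := by
  classical
  set φ : Q → F := fun q => if h : q ∈ F then ⟨q, h⟩ else q₀ with hφ
  have hφ1 : ∀ q : F, φ q = q := fun q => by
    show (if h : (q : Q) ∈ F then (⟨q, h⟩ : F) else q₀) = q
    rw [dif_pos q.2]
  have hφ2 : ∀ q, q ∈ F → ((φ q : F) : Q) = q := fun q hq => by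
    show ((if h : q ∈ F then (⟨q, h⟩ : F) else q₀ : F) : Q) = q
    rw [dif_pos hq]
  set M' : F → Instr F K Γ := fun q => (M q).map φ with hM'
  refine ⟨M', fun S j => ?_⟩
  have key : ∀ j, (runI M (q₀.1, S) j).1 ∈ F ∧
      runI M' (q₀, S) j = (φ (runI M (q₀.1, S) j).1, (runI M (q₀.1, S) j).2) := by
    intro j
    induction j with
    | zero => exact ⟨q₀.2, by rw [runI_zero, runI_zero, hφ1]⟩
    | succ j ih =>
      obtain ⟨ih1, ih2⟩ := ih
      rw [runI_succ, runI_succ]
      refine ⟨stepI_into (F := (· ∈ F)) ih1 (hF _ ih1) _, ?_⟩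
      rw [ih2]
      apply stepI_map
      show (M (φ _)).map φ = _
      rw [hφ2 _ ih1]
  obtain ⟨k1, k2⟩ := key j
  refine ⟨by rw [k2]; exact hφ2 _ k1, by rw [k2], ?_⟩
  rw [k2]
  show (M (φ _)).map φ = _ ↔ _
  rw [hφ2 _ k1]
  cases M (runI M (q₀.1, S) j).1 <;> simp [Instr.map]

omit [DecidableEq K] in
theorem micro_into [Fintype σ] [DecidableEq σ] [Inhabited Λ]
    (tr : Λ → Stmt (fun _ : K => Γ) Λ σ) (L : Finset Λ)
    (hL : TM2.Supports tr L) :
    ∃ F : Finset (Stmt (fun _ : K => Γ) Λ σ × σ),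
      (∀ l ∈ L, ∀ v, (tr l, v) ∈ F) ∧ ∀ q ∈ F, (micro tr q).Into (· ∈ F) := by
  classical
  refine ⟨(L.biUnion fun l => stmts₁ (tr l)) ×ˢ Finset.univ, ?_, ?_⟩
  · intro l hl v
    simp only [Finset.mem_product, Finset.mem_biUnion, Finset.mem_univ, and_true]
    exact ⟨l, hl, stmts₁_self⟩
  · rintro ⟨s, v⟩ hs
    simp only [Finset.mem_product, Finset.mem_biUnion, Finset.mem_univ, and_true] at hs
    obtain ⟨l, hl, hs⟩ := hs
    have hsup : SupportsStmt L s := stmts₁_supportsStmt_mono hs (hL.2 l hl)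
    have htr : ∀ q, q ∈ stmts₁ s → ∀ v : σ,
        (q, v) ∈ (L.biUnion fun l => stmts₁ (tr l)) ×ˢ (Finset.univ : Finset σ) := by
      intro q hq v
      simp only [Finset.mem_product, Finset.mem_biUnion, Finset.mem_univ, and_true]
      exact ⟨l, hl, stmts₁_trans hs hq⟩
    cases s with
    | push k f q =>
      exact htr q (by rw [stmts₁]; exact Finset.mem_insert_of_mem stmts₁_self) _
    | peek k f q =>
      exact fun t => htr q (by rw [stmts₁]; exact Finset.mem_insert_of_mem stmts₁_self) _
    | pop k f q =>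
      exact fun t => htr q (by rw [stmts₁]; exact Finset.mem_insert_of_mem stmts₁_self) _
    | load a q =>
      exact fun t => htr q (by rw [stmts₁]; exact Finset.mem_insert_of_mem stmts₁_self) _
    | branch f q₁ q₂ =>
      refine fun t => htr _ ?_ _
      cases f v with
      | false =>
        rw [stmts₁]
        exact Finset.mem_insert_of_mem (Finset.mem_union_right _ stmts₁_self)
      | true =>
        rw [stmts₁]
        exact Finset.mem_insert_of_mem (Finset.mem_union_left _ stmts₁_self)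
    | goto l' =>
      intro t
      show (tr (l' v), v) ∈ _
      simp only [Finset.mem_product, Finset.mem_biUnion, Finset.mem_univ, and_true]
      exact ⟨l' v, hsup v, stmts₁_self⟩
    | halt => trivial

end

/-! ### recursively inseparable halting computations -/

open Turing.PartrecToTM2 in
/-- the initial contents of the stacks: the word `1 ... 1` (`m` times) followed by an end
marker on the first stack -/
def input (m : ℕ) : K' → List Γ' :=
  K'.elim (List.replicate m Γ'.bit1 ++ [Γ'.cons]) [] [] []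

open Turing.PartrecToTM2 in
theorem trNat_pow (m : ℕ) : trNat (2 ^ m - 1) = List.replicate m Γ'.bit1 := by
  induction m with
  | zero => simp
  | succ m ih =>
    have h1 : 2 ^ (m + 1) - 1 = (2 ^ m - 1) + (2 ^ m - 1) + 1 := by
      have := Nat.one_le_two_pow (n := m)
      rw [pow_succ]; omega
    have h2 : ∀ n : Num, trNum n.bit1 = Γ'.bit1 :: trNum n := by
      intro n
      cases n with
      | zero => rfl
      | pos p => rfl
    unfold trNat at ih ⊢
    rw [h1, List.replicate_succ, ← ih, ← h2, ← Num.bit1_of_bit1]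
    push_cast
    rfl

/-- the diagonal partial function -/
def diagF (n : ℕ) : Part ℕ := Nat.Partrec.Code.eval (Denumerable.ofNat Nat.Partrec.Code n) n

theorem diagF_partrec : Partrec diagF :=
  Nat.Partrec.Code.eval_part.comp (Computable.ofNat Nat.Partrec.Code) Computable.id

theorem diagF_insep (D : ℕ → Prop) (hD : ComputablePred D) :
    (∃ n, D n ∧ 1 ∈ diagF n) ∨ (∃ n, ¬ D n ∧ 0 ∈ diagF n) := by
  obtain ⟨f, hf, rfl⟩ := ComputablePred.computable_iff.1 hD
  have hg : Computable fun n : ℕ => cond (f n) 1 0 :=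
    Computable.cond hf (Computable.const 1) (Computable.const 0)
  have hg' : Nat.Partrec (fun n : ℕ => Part.some (cond (f n) 1 0)) := Partrec.nat_iff.1 hg
  obtain ⟨cd, hcd⟩ := Nat.Partrec.Code.exists_code.1 hg'
  have h1 : diagF (Encodable.encode cd) = Part.some (cond (f (Encodable.encode cd)) 1 0) := by
    unfold diagF
    rw [Denumerable.ofNat_encode, hcd]
  cases hb : f (Encodable.encode cd) with
  | true =>
    left
    refine ⟨Encodable.encode cd, hb, ?_⟩
    rw [h1, hb]; exact Part.mem_some _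
  | false =>
    right
    refine ⟨Encodable.encode cd, ?_, ?_⟩
    · show ¬ (f (Encodable.encode cd) = true)
      rw [hb]; simp
    · rw [h1, hb]; exact Part.mem_some _

open Turing.PartrecToTM2 in
/-- Mathlib's program, as a statement -/
def trS : Λ' → Turing.TM2.Stmt (fun _ : K' => Γ') Λ' (Option Γ') := tr

open Turing.PartrecToTM2 Turing.ToPartrec in
theorem hrun_aux {c : Code} {x y : ℕ} (h : [y] ∈ c.eval [x]) : ∃ T,
    runI (micro trS) ((trS (trNormal c Cont'.halt), none), K'.elim (trList [x]) [] [] []) T =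
      ((Turing.TM2.Stmt.halt, none), K'.elim (trList [y]) [] [] []) := by
  have h1 : halt [y] ∈ StateTransition.eval (Turing.TM2.step tr) (init c [x]) := by
    rw [tr_eval]
    exact Part.mem_map _ h
  obtain ⟨h2, _⟩ := StateTransition.mem_eval.1 h1
  exact micro_reaches trS h2

open Turing.PartrecToTM2 Turing.ToPartrec in
theorem exists_machine : ∃ (Q : Type) (_ : Fintype Q) (M : Q → Instr Q K' Γ') (q₀ : Q),
    ∀ D : ℕ → Prop, ComputablePred D →
      (∃ m T, D m ∧ M (runI M (q₀, input m) T).1 = .halt ∧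
        ((runI M (q₀, input m) T).2 K'.main).head? = some Γ'.bit1) ∨
      (∃ m T, ¬ D m ∧ M (runI M (q₀, input m) T).1 = .halt ∧
        ((runI M (q₀, input m) T).2 K'.main).head? ≠ some Γ'.bit1) := by
  classical
  -- a partial recursive function
  set pr : ℕ → ℕ →. Bool := fun x k => Part.some (decide (x + 1 = 2 ^ k)) with hpr
  set u' : ℕ →. ℕ := fun x => (Nat.rfind (pr x)).bind diagF with hu'
  have hu'p : Partrec u' := by
    refine Partrec.bind (Partrec.rfind ?_) (diagF_partrec.comp Computable.snd)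
    have h1 : PrimrecPred fun p : ℕ × ℕ => p.1 + 1 = 2 ^ p.2 := by
      apply PrimrecRel.comp Primrec.eq (Primrec.succ.comp Primrec.fst)
      have h2 : Primrec₂ fun (x : ℕ) (k : ℕ) => x ^ k := Primrec₂.unpaired'.1 Nat.Primrec.pow
      exact h2.comp (Primrec.const 2) Primrec.snd
    obtain ⟨_, h1⟩ := h1
    have h3 : Computable₂ fun (x k : ℕ) => decide (x + 1 = 2 ^ k) :=
      h1.to_comp.of_eq fun p => by congr
    exact h3.partrec₂
  have hu'v : ∀ m, u' (2 ^ m - 1) = diagF m := by
    intro m
    have h1 : m ∈ Nat.rfind (pr (2 ^ m - 1)) := by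
      have h2 : 2 ^ m - 1 + 1 = 2 ^ m := Nat.sub_add_cancel Nat.one_le_two_pow
      rw [Nat.mem_rfind]
      refine ⟨by simp [hpr, h2], fun {k} hk => ?_⟩
      have : 2 ^ m ≠ 2 ^ k := fun h => by
        have := Nat.pow_right_injective le_rfl h
        omega
      simp [hpr, h2, this]
    have h3 : Nat.rfind (pr (2 ^ m - 1)) = Part.some m := Part.eq_some_iff.2 h1
    show (Nat.rfind _).bind diagF = _
    rw [h3, Part.bind_some]
  obtain ⟨c, hc⟩ := Code.exists_code (Nat.Partrec'.part_iff₁.2 hu'p)
  have hc' : ∀ m, c.eval [2 ^ m - 1] = pure <$> diagF m := by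
    intro m
    have := hc ((2 ^ m - 1) ::ᵥ List.Vector.nil)
    rw [← hu'v m]
    exact this
  -- the halting computations
  have hrun : ∀ m y, y ∈ diagF m → ∃ T,
      runI (micro trS) ((trS (trNormal c Cont'.halt), none), input m) T =
        ((Turing.TM2.Stmt.halt, none), K'.elim (trList [y]) [] [] []) := by
    intro m y hy
    have h1 : [y] ∈ c.eval [2 ^ m - 1] := by
      rw [hc']
      exact Part.mem_map _ hy
    obtain ⟨T, hT⟩ := hrun_aux h1
    refine ⟨T, ?_⟩
    rw [← hT, trList, trNat_pow]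
    rfl
  -- finitely many states
  obtain ⟨F, hF1, hF2⟩ := @micro_into K' Γ' Λ' (Option Γ') _ _ _ ⟨trNormal c Cont'.halt⟩ trS
    (codeSupp c Cont'.halt) (tr_supports c Cont'.halt)
  have hq₀ : (trS (trNormal c Cont'.halt), none) ∈ F :=
    hF1 _ (tr_supports c Cont'.halt).1 none
  obtain ⟨M', hM'⟩ := restrict F (micro trS) hF2 ⟨_, hq₀⟩
  refine ⟨F, inferInstance, M', ⟨_, hq₀⟩, fun D hD => ?_⟩
  rcases diagF_insep D hD with ⟨m, hm, h1⟩ | ⟨m, hm, h1⟩
  · left
    obtain ⟨T, hT⟩ := hrun m 1 h1
    obtain ⟨_, e2, e3⟩ := hM' (input m) T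
    refine ⟨m, T, hm, e3.2 (by rw [hT]; rfl), ?_⟩
    rw [e2, hT]
    rfl
  · right
    obtain ⟨T, hT⟩ := hrun m 0 h1
    obtain ⟨_, e2, e3⟩ := hM' (input m) T
    refine ⟨m, T, hm, e3.2 (by rw [hT]; rfl), ?_⟩
    rw [e2, hT]
    simp [trNat_zero]

end Pool.Agent.Lib.MP_68c508_lc
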