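import Pool.Agent.Lib.MP_68c508_lc.Tree

/-!
Large tori in the Grigorchuk group.
-/

namespace Pool.Agent.Lib.MP_68c508_lc

theorem ap_inv (f : Pm) (x : List Bool) : f (f⁻¹ x) = x := f.apply_symm_apply x

theorem inv_ap (f : Pm) (x : List Bool) : f⁻¹ (f x) = x := f.symm_apply_apply x

/-! ### cyclic orbits with trivial return -/

/-- the orbit of the vertex `v` under `g` has `N` elements and `g ^ N` fixes everything
below `v` -/
def Cyc (g : Pm) (v : List Bool) (N : ℕ) : Prop :=
  (∀ j : ℕ, (g ^ j) v = v → N ∣ j) ∧ ∀ w, (g ^ N) (v ++ w) = v ++ w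

theorem IsTA.take_app {f : Pm} (hf : IsTA f) (v w : List Bool) :
    (f (v ++ w)).take v.length = f v := by
  rw [← (hf (v ++ w)).2, List.take_left']
  rfl

theorem isTA_of_mem_K {g : Pm} (hg : g ∈ K) : IsTA g := isTA_of_mem (K_le hg)

theorem s_nil : s [] = [] := by
  have := (isTA_of_mem_K s_mem []).1
  exact List.eq_nil_of_length_eq_zero this

theorem s_s (w : List Bool) : s (s w) = w := by
  have := congrArg (fun f : Pm => f w) s_mul_s
  exact this

theorem s_pow_even (q : ℕ) (w : List Bool) : (s ^ (2 * q)) w = w := by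
  rw [pow_mul, pow_two, s_mul_s, one_pow]; rfl

theorem cyc_step {g : Pm} (hg : g ∈ K) {v : List Bool} {N : ℕ} (hN : 0 < N)
    (h : Cyc g v N) : Cyc (g * dl v s) (v ++ us) (2 * N) := by
  have hT : IsTA g := isTA_of_mem_K hg
  have hTp : ∀ j : ℕ, IsTA (g ^ j) := fun j => isTA_of_mem_K (pow_mem hg j)
  have hg' : g * dl v s ∈ K := mul_mem hg (dl_mem_K v s_mem)
  have key : ∀ j, j + 1 ≤ N → ∀ w, ((g * dl v s) ^ (j + 1)) (v ++ w) = (g ^ (j + 1)) (v ++ s w) := by
    intro j
    induction j with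
    | zero =>
      intro _ w
      rw [zero_add, pow_one, pow_one]
      show g (dl v s (v ++ w)) = _
      rw [dl_apply]
    | succ j ih =>
      intro hj w
      rw [pow_succ' _ (j + 1)]
      show (g * dl v s) (((g * dl v s) ^ (j + 1)) (v ++ w)) = _
      rw [ih (by omega)]
      show g (dl v s ((g ^ (j + 1)) (v ++ s w))) = _
      rw [dl_fix, pow_succ' g (j + 1)]
      · rfl
      · rw [(hTp (j + 1)).take_app]
        intro h'
        have := h.1 _ h'
        have := Nat.le_of_dvd (by omega) this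
        omega
  have keyN : ∀ w, ((g * dl v s) ^ N) (v ++ w) = v ++ s w := by
    intro w
    obtain ⟨m, rfl⟩ : ∃ m, N = m + 1 := ⟨N - 1, by omega⟩
    rw [key m le_rfl, h.2]
  have keyqN : ∀ q w, ((g * dl v s) ^ (N * q)) (v ++ w) = v ++ (s ^ q) w := by
    intro q
    induction q with
    | zero => intro w; rfl
    | succ q ih =>
      intro w
      rw [Nat.mul_succ, pow_add]
      show ((g * dl v s) ^ (N * q)) (((g * dl v s) ^ N) (v ++ w)) = _
      rw [keyN, ih, pow_succ]
      rfl
  refine ⟨fun j hj => ?_, fun w => ?_⟩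
  · have hj1 : ((g * dl v s) ^ j) v = v := by
      have h1 := (isTA_of_mem_K (pow_mem hg' j)).take_app v us
      rw [hj] at h1
      rw [← h1, List.take_left']
      rfl
    have hjd : j = N * (j / N) + j % N := (Nat.div_add_mod j N).symm
    have hr : j % N = 0 := by
      by_contra hr
      obtain ⟨r, hr'⟩ : ∃ r, j % N = r + 1 := ⟨j % N - 1, by omega⟩
      have hlt : j % N < N := Nat.mod_lt _ hN
      rw [hjd, add_comm, pow_add] at hj1
      have h2 := keyqN (j / N) []
      rw [List.append_nil] at h2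
      have hsq : ∀ q : ℕ, (s ^ q) [] = [] := by
        intro q
        induction q with
        | zero => rfl
        | succ q ih => rw [pow_succ]; show (s ^ q) (s []) = []; rw [s_nil, ih]
      rw [hsq, List.append_nil] at h2
      change ((g * dl v s) ^ (j % N)) (((g * dl v s) ^ (N * (j / N))) v) = v at hj1
      rw [h2, hr'] at hj1
      have h3 := key r (by omega) []
      rw [List.append_nil, hj1, s_nil, List.append_nil] at h3
      have h4 := h.1 _ h3.symm
      have := Nat.le_of_dvd (by omega) h4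
      omega
    rw [hr, add_zero] at hjd
    rw [hjd, keyqN] at hj
    have hj2 : (s ^ (j / N)) us = us := List.append_cancel_left hj
    rcases Nat.even_or_odd' (j / N) with ⟨q, hq | hq⟩
    · rw [hjd, hq]
      exact ⟨q, by ring⟩
    · exfalso
      rw [hq, pow_succ] at hj2
      apply s_us
      have h5 : (s ^ (2 * q)) (s us) = us := hj2
      rwa [s_pow_even] at h5
  · rw [List.append_assoc, mul_comm 2 N, keyqN, pow_two, s_mul_s]
    rfl

theorem exists_cyc (k : ℕ) : ∃ g ∈ K, ∃ v, Cyc g v (2 ^ k) := by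
  induction k with
  | zero =>
    refine ⟨1, one_mem _, [], fun j _ => by simp, fun w => rfl⟩
  | succ k ih =>
    obtain ⟨g, hg, v, h⟩ := ih
    refine ⟨g * dl v s, mul_mem hg (dl_mem_K v s_mem), v ++ us, ?_⟩
    rw [pow_succ, mul_comm]
    exact cyc_step hg (by positivity) h

/-! ### gluing -/

theorem exists_glue {ι : Type} [DecidableEq ι] (V : List Bool) {k : Pm} (hk : k ∈ K)
    (γ : ι → Pm) (X : Finset ι) (hγ : ∀ i ∈ X, γ i ∈ GrigorchukGroup)
    (hinj : ∀ i ∈ X, ∀ j ∈ X, γ i V = γ j V → i = j) :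
    ∃ x ∈ K, (∀ i ∈ X, ∀ w, x (γ i (V ++ w)) = γ i (V ++ k w)) ∧
      ∀ y : List Bool, (∀ i ∈ X, y.take V.length ≠ γ i V) → x y = y := by
  induction X using Finset.induction_on with
  | empty => exact ⟨1, one_mem _, fun i hi => absurd hi (by simp), fun y _ => rfl⟩
  | insert i X hi ih =>
    obtain ⟨x, hx, h1, h2⟩ := ih (fun j hj => hγ j (Finset.mem_insert_of_mem hj))
      (fun j hj l hl => hinj j (Finset.mem_insert_of_mem hj) l (Finset.mem_insert_of_mem hl))
    have hγi := hγ i (Finset.mem_insert_self i X)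
    have hTi : IsTA (γ i) := isTA_of_mem hγi
    refine ⟨x * (γ i * dl V k * (γ i)⁻¹), mul_mem hx (conj_mem_K hγi (dl_mem_K V hk)),
      fun j hj w => ?_, fun y hy => ?_⟩
    · show x (γ i (dl V k ((γ i)⁻¹ (γ j (V ++ w))))) = _
      by_cases hji : j = i
      · subst hji
        rw [inv_ap, dl_apply]
        apply h2
        intro l hl h3
        rw [hTi.take_app] at h3
        have := hinj j (Finset.mem_insert_self j X) l (Finset.mem_insert_of_mem hl) h3
        exact hi (this ▸ hl)
      · have hjX : j ∈ X := Finset.mem_of_mem_insert_of_ne hj hji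
        have hTj : IsTA (γ j) := isTA_of_mem (hγ j hj)
        rw [dl_fix, ap_inv, h1 j hjX]
        rw [← (hTi.inv (γ j (V ++ w))).2, hTj.take_app]
        intro h3
        have h4 : γ j V = γ i V := by
          conv_rhs => rw [← h3]
          rw [ap_inv]
        exact hji (hinj j hj i (Finset.mem_insert_self i X) h4)
    · show x (γ i (dl V k ((γ i)⁻¹ y))) = _
      rw [dl_fix, ap_inv]
      · exact h2 y fun j hj => hy j (Finset.mem_insert_of_mem hj)
      · rw [← (hTi.inv y).2]
        intro h3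
        apply hy i (Finset.mem_insert_self i X)
        conv_rhs => rw [← h3]
        rw [ap_inv]

/-! ### the abstract property -/

/-- The group has arbitrarily large tori with all colourings. -/
def TorusRich (G : Type) [Group G] : Prop :=
  ∀ M : ℕ, ∃ N > M, ∃ p z g₁ g₂ : G, g₁ * g₂ = g₂ * g₁ ∧ g₁ * p = p * g₁ ∧ g₂ * p = p * g₂ ∧
    ∃ κ : G → ZMod N × ZMod N, κ 1 = 0 ∧
      (∀ h, h * p = p * h → κ (g₁ * h) = κ h + (1, 0) ∧ κ (g₂ * h) = κ h + (0, 1)) ∧
      ∀ X : Set (ZMod N × ZMod N), ∃ x : G, ∀ h, h * p = p * h →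
        (x * (h * z * h⁻¹) ≠ (h * z * h⁻¹) * x ↔ κ h ∈ X)

/-! ### the tori -/

theorem cyc_mod {g : Pm} {v : List Bool} {N : ℕ} (h : Cyc g v N) {i j : ℕ}
    (hij : i ≡ j [MOD N]) (w : List Bool) : (g ^ i) (v ++ w) = (g ^ j) (v ++ w) := by
  have key : ∀ q w, (g ^ (N * q)) (v ++ w) = v ++ w := by
    intro q
    induction q with
    | zero => intro w; rfl
    | succ q ih =>
      intro w
      rw [Nat.mul_succ, pow_add]
      show (g ^ (N * q)) ((g ^ N) (v ++ w)) = _
      rw [h.2, ih]
  have key2 : ∀ i w, (g ^ i) (v ++ w) = (g ^ (i % N)) (v ++ w) := by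
    intro i w
    conv_lhs => rw [← Nat.div_add_mod i N, add_comm, pow_add]
    show (g ^ (i % N)) ((g ^ (N * (i / N))) (v ++ w)) = _
    rw [key]
  rw [key2 i, key2 j, hij]

theorem cyc_inj {g : Pm} {v : List Bool} {N : ℕ} (h : Cyc g v N) {i j : ℕ}
    (hij : (g ^ i) v = (g ^ j) v) : i ≡ j [MOD N] := by
  wlog hle : i ≤ j generalizing i j
  · exact (this hij.symm (by omega)).symm
  · obtain ⟨k, rfl⟩ := Nat.exists_eq_add_of_le hle
    rw [pow_add] at hij
    have : (g ^ k) v = v := ((g ^ i).injective hij).symm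
    have := h.1 k this
    exact (Nat.modEq_iff_dvd' (by omega)).2 (by simpa using this)

theorem glue_comm {ι : Type} (V : List Bool) {k : Pm} (γ : ι → Pm) (X : Finset ι)
    (hγ : ∀ i ∈ X, IsTA (γ i)) {x : Pm}
    (h1 : ∀ i ∈ X, ∀ w, x (γ i (V ++ w)) = γ i (V ++ k w))
    (h2 : ∀ y : List Bool, (∀ i ∈ X, y.take V.length ≠ γ i V) → x y = y)
    {f : Pm} (hf : IsTA f)
    (hf1 : ∀ i ∈ X, ∃ j ∈ X, ∀ w, f (γ i (V ++ w)) = γ j (V ++ w))
    (hf2 : ∀ j ∈ X, ∃ i ∈ X, f (γ i V) = γ j V) : f * x = x * f := by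
  ext1 y
  show f (x y) = x (f y)
  by_cases hy : ∃ i ∈ X, y.take V.length = γ i V
  · obtain ⟨i, hi, hy⟩ := hy
    have h3 : ((γ i)⁻¹ y).take V.length = V := by
      rw [← ((hγ i hi).inv y).2, hy, inv_ap]
    obtain ⟨w, hw⟩ := eq_append_of_take h3
    have hyw : y = γ i (V ++ w) := by rw [← hw, ap_inv]
    obtain ⟨j, hj, hfj⟩ := hf1 i hi
    rw [hyw, h1 i hi, hfj, hfj, h1 j hj]
  · push Not at hy
    rw [h2 y hy, h2]
    intro j hj h3
    obtain ⟨i, hi, hfi⟩ := hf2 j hj
    rw [← (hf y).2, ← hfi] at h3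
    exact hy i hi (f.injective h3)

theorem torus_core {g : Pm} (hg : g ∈ K) {v : List Bool} {N : ℕ} (hN : 0 < N)
    (h : Cyc g v N) :
    ∃ p ∈ K, ∃ z ∈ K, ∃ g₂ ∈ K, g * g₂ = g₂ * g ∧ g * p = p * g ∧ g₂ * p = p * g₂ ∧
    ∃ κ : Pm → ZMod N × ZMod N, κ 1 = 0 ∧
      (∀ h ∈ GrigorchukGroup, h * p = p * h →
        κ (g * h) = κ h + (1, 0) ∧ κ (g₂ * h) = κ h + (0, 1)) ∧
      ∀ X : Set (ZMod N × ZMod N), ∃ x ∈ K, ∀ h ∈ GrigorchukGroup, h * p = p * h →
        (x * (h * z * h⁻¹) ≠ (h * z * h⁻¹) * x ↔ κ h ∈ X) := by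
  classical
  have : NeZero N := ⟨hN.ne'⟩
  have hgG : ∀ i : ℕ, g ^ i ∈ GrigorchukGroup := fun i => K_le (pow_mem hg i)
  -- the second generator
  obtain ⟨g₂, hg₂, hA0, hB⟩ := exists_glue v hg (fun i : ℕ => g ^ i) (Finset.range N)
    (fun i _ => hgG i) (fun i hi j hj hij => by
      have := cyc_inj h hij
      rw [Finset.mem_range] at hi hj
      unfold Nat.ModEq at this
      rwa [Nat.mod_eq_of_lt hi, Nat.mod_eq_of_lt hj] at this)
  have hcomm : g * g₂ = g₂ * g := by
    refine glue_comm v (fun i : ℕ => g ^ i) (Finset.range N)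
      (fun i _ => isTA_of_mem (hgG i)) hA0 hB (isTA_of_mem_K hg) ?_ ?_
    · intro i _
      refine ⟨(i + 1) % N, Finset.mem_range.2 (Nat.mod_lt _ hN), fun w => ?_⟩
      show g ((g ^ i) (v ++ w)) = (g ^ ((i + 1) % N)) (v ++ w)
      rw [cyc_mod h (Nat.mod_modEq (i + 1) N), pow_succ']
      rfl
    · intro j hj
      refine ⟨(j + (N - 1)) % N, Finset.mem_range.2 (Nat.mod_lt _ hN), ?_⟩
      show g ((g ^ ((j + (N - 1)) % N)) v) = (g ^ j) v
      have e1 := cyc_mod h (Nat.mod_modEq (j + (N - 1)) N) []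
      have e2 : j + N ≡ j [MOD N] := by simp [Nat.ModEq]
      have e3 := cyc_mod h e2 []
      rw [List.append_nil] at e1 e3
      rw [e1, ← e3, show j + N = (j + (N - 1)) + 1 by omega, pow_succ' _ (j + (N - 1))]
      rfl
  have hg2v : ∀ n w, (g₂ ^ n) (v ++ w) = v ++ (g ^ n) w := by
    intro n
    induction n with
    | zero => intro w; rfl
    | succ n ih =>
      intro w
      rw [pow_succ', pow_succ']
      show g₂ ((g₂ ^ n) (v ++ w)) = v ++ g ((g ^ n) w)
      rw [ih]
      exact hA0 0 (Finset.mem_range.2 hN) _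
  -- the charts
  set V := v ++ v with hV
  set γ : ZMod N × ZMod N → Pm := fun i => g ^ i.1.val * g₂ ^ i.2.val with hγ
  have hγG : ∀ i, γ i ∈ GrigorchukGroup := fun i =>
    mul_mem (K_le (pow_mem hg _)) (K_le (pow_mem hg₂ _))
  have hγT : ∀ i, IsTA (γ i) := fun i => isTA_of_mem (hγG i)
  have hγV : ∀ i w, γ i (V ++ w) = (g ^ i.1.val) (v ++ (g ^ i.2.val) (v ++ w)) := by
    intro i w
    show (g ^ i.1.val) ((g₂ ^ i.2.val) (V ++ w)) = _
    rw [hV, List.append_assoc, hg2v]
  have hmod : ∀ x : ZMod N, x.val + 1 ≡ (x + 1).val [MOD N] := by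
    intro x
    rw [← ZMod.natCast_eq_natCast_iff]
    simp
  have hg1c : ∀ i w, g (γ i (V ++ w)) = γ (i + (1, 0)) (V ++ w) := by
    intro i w
    rw [hγV, hγV]
    show g ((g ^ i.1.val) _) = _
    have : g ((g ^ i.1.val) (v ++ (g ^ i.2.val) (v ++ w))) =
      (g ^ (i.1.val + 1)) (v ++ (g ^ i.2.val) (v ++ w)) := by rw [pow_succ']; rfl
    rw [this, cyc_mod h (hmod i.1)]
    simp
  have hg2c : ∀ i w, g₂ (γ i (V ++ w)) = γ (i + (0, 1)) (V ++ w) := by
    intro i w
    have e1 : g₂ (γ i (V ++ w)) = (g ^ i.1.val) ((g₂ ^ (i.2.val + 1)) (V ++ w)) := by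
      have : g₂ * γ i = g ^ i.1.val * g₂ ^ (i.2.val + 1) := by
        show g₂ * (g ^ i.1.val * g₂ ^ i.2.val) = _
        rw [← mul_assoc, ← ((show Commute g g₂ from hcomm).pow_left i.1.val).eq, mul_assoc,
          ← pow_succ']
      exact congrArg (fun f : Pm => f (V ++ w)) this
    rw [e1, hV, List.append_assoc, hg2v, cyc_mod h (hmod i.2), ← List.append_assoc, ← hV, hγV]
    simp
  have hinj : ∀ i j, γ i V = γ j V → i = j := by
    intro i j hij
    have e1 := hγV i []
    have e2 := hγV j []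
    rw [List.append_nil, List.append_nil] at e1 e2
    rw [e1, e2] at hij
    have hT1 := isTA_of_mem (hgG i.1.val)
    have hT2 := isTA_of_mem (hgG j.1.val)
    have h3 : (g ^ i.1.val) v = (g ^ j.1.val) v := by
      rw [← hT1.take_app v ((g ^ i.2.val) v), hij, hT2.take_app]
    have h4 := cyc_inj h h3
    have h5 : i.1 = j.1 := by
      rw [← ZMod.natCast_eq_natCast_iff] at h4
      simpa using h4
    rw [h5] at hij
    have h6 := List.append_cancel_left ((g ^ j.1.val).injective hij)
    have h7 := cyc_inj h h6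
    have h8 : i.2 = j.2 := by
      rw [← ZMod.natCast_eq_natCast_iff] at h7
      simpa using h7
    exact Prod.ext h5 h8
  -- colours
  have hcol : ∀ X : Set (ZMod N × ZMod N), ∃ x ∈ K,
      (∀ i ∈ X, ∀ w, x (γ i (V ++ w)) = γ i (V ++ t w)) ∧
      ∀ y : List Bool, (∀ i ∈ X, y.take V.length ≠ γ i V) → x y = y := by
    intro X
    obtain ⟨x, hx, h1, h2⟩ := exists_glue V t_mem_K γ X.toFinset (fun i _ => hγG i)
      (fun i _ j _ => hinj i j)
    exact ⟨x, hx, fun i hi => h1 i (by simpa using hi), fun y hy => h2 y fun i hi =>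
      hy i (by simpa using hi)⟩
  obtain ⟨p, hp, hp1, hp2⟩ := hcol Set.univ
  have hp1' : ∀ i w, p (γ i (V ++ w)) = γ i (V ++ t w) := fun i => hp1 i trivial
  have hcomm1 : g * p = p * g := by
    refine glue_comm (k := t) V γ Finset.univ (fun i _ => hγT i) (fun i _ => hp1' i)
      (fun y hy => hp2 y fun i _ => hy i (Finset.mem_univ i)) (isTA_of_mem_K hg) ?_ ?_
    · intro i _
      exact ⟨i + (1, 0), Finset.mem_univ _, hg1c i⟩
    · intro j _
      refine ⟨j - (1, 0), Finset.mem_univ _, ?_⟩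
      have := hg1c (j - (1, 0)) []
      rw [List.append_nil, sub_add_cancel] at this
      exact this
  have hcomm2 : g₂ * p = p * g₂ := by
    refine glue_comm (k := t) V γ Finset.univ (fun i _ => hγT i) (fun i _ => hp1' i)
      (fun y hy => hp2 y fun i _ => hy i (Finset.mem_univ i)) (isTA_of_mem_K hg₂) ?_ ?_
    · intro i _
      exact ⟨i + (0, 1), Finset.mem_univ _, hg2c i⟩
    · intro j _
      refine ⟨j - (0, 1), Finset.mem_univ _, ?_⟩
      have := hg2c (j - (0, 1)) []
      rw [List.append_nil, sub_add_cancel] at this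
      exact this
  -- positions
  have hpos : ∀ x ∈ GrigorchukGroup, x * p = p * x → ∃ i, x V = γ i V := by
    intro x hx hxp
    by_contra hno
    push Not at hno
    have hTx := isTA_of_mem hx
    have e1 : p (x (V ++ [false, false])) = x (V ++ [false, false]) := by
      apply hp2
      intro i _
      rw [hTx.take_app]
      exact hno i
    have e2 : p (x (V ++ [false, false])) = x (p (V ++ [false, false])) :=
      congrArg (fun f : Pm => f (V ++ [false, false])) hxp.symm
    have e3 : p (V ++ [false, false]) = V ++ t [false, false] := by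
      have := hp1' 0 [false, false]
      have h0 : γ 0 = 1 := by simp [hγ]
      rw [h0] at this
      exact this
    rw [e2, e3] at e1
    have e4 := List.append_cancel_left (x.injective e1)
    exact t_moves e4
  set κ : Pm → ZMod N × ZMod N := fun x => if hx : ∃ i, x V = γ i V then hx.choose else 0 with hκ
  have hκ' : ∀ x i, x V = γ i V → κ x = i := by
    intro x i hi
    have hx : ∃ i, x V = γ i V := ⟨i, hi⟩
    have : κ x = hx.choose := dif_pos hx
    rw [this]
    apply hinj
    rw [← hx.choose_spec, hi]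
  set z : Pm := dl V (pr t 1) with hz
  have hzK : z ∈ K := dl_mem_K V pr_t_one_mem
  refine ⟨p, hp, z, hzK, g₂, hg₂, hcomm, hcomm1, hcomm2, κ, ?_, ?_, ?_⟩
  · apply hκ'
    simp [hγ]
  · intro x hx hxp
    obtain ⟨i, hi⟩ := hpos x hx hxp
    have e1 := hg1c i []
    have e2 := hg2c i []
    rw [List.append_nil] at e1 e2
    refine ⟨?_, ?_⟩
    · rw [hκ' x i hi]
      apply hκ'
      show g (x V) = _
      rw [hi, e1]
    · rw [hκ' x i hi]
      apply hκ'
      show g₂ (x V) = _
      rw [hi, e2]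
  · intro X
    obtain ⟨x, hxK, hx1, hx2⟩ := hcol X
    refine ⟨x, hxK, fun y hy hyp => ?_⟩
    obtain ⟨i, hi⟩ := hpos y hy hyp
    rw [hκ' y i hi]
    have hTy := isTA_of_mem hy
    have hTx := isTA_of_mem_K hxK
    have hzV : ∀ w, (y * z * y⁻¹) (y (V ++ w)) = y (V ++ (pr t 1) w) := by
      intro w
      show y (z (y⁻¹ (y (V ++ w)))) = _
      rw [inv_ap, hz, dl_apply]
    constructor
    · intro hne
      by_contra hiX
      apply hne
      ext1 u
      show x ((y * z * y⁻¹) u) = (y * z * y⁻¹) (x u)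
      have hfix : ∀ w, x (y (V ++ w)) = y (V ++ w) := by
        intro w
        apply hx2
        intro j hj h3
        rw [hTy.take_app, hi] at h3
        exact hiX (hinj i j h3 ▸ hj)
      have hzfix : ∀ u : List Bool, u.take V.length ≠ y V → (y * z * y⁻¹) u = u := by
        intro u hu
        show y (z (y⁻¹ u)) = u
        rw [hz, dl_fix, ap_inv]
        rw [← (hTy.inv u).2]
        intro h3
        apply hu
        conv_rhs => rw [← h3]
        rw [ap_inv]
      by_cases hu : u.take V.length = y V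
      · have h3 : (y⁻¹ u).take V.length = V := by
          rw [← (hTy.inv u).2, hu, inv_ap]
        obtain ⟨w, hw⟩ := eq_append_of_take h3
        have huw : u = y (V ++ w) := by rw [← hw, ap_inv]
        rw [huw, hzV, hfix, hfix, hzV]
      · rw [hzfix u hu, hzfix]
        rw [← (hTx u).2]
        intro h3
        have h4 := hfix []
        rw [List.append_nil] at h4
        rw [← h4] at h3
        exact hu (x.injective h3)
    · intro hiX heq
      apply t_pr_t
      ext1 w
      show t ((pr t 1) w) = (pr t 1) (t w)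
      have hxp : ∀ w, x (y (V ++ w)) = y (V ++ t w) := by
        intro w
        have h3 : ((γ i)⁻¹ (y (V ++ w))).take V.length = V := by
          rw [← ((hγT i).inv _).2, hTy.take_app, hi, inv_ap]
        obtain ⟨w', hw'⟩ := eq_append_of_take h3
        have hyw : y (V ++ w) = γ i (V ++ w') := by rw [← hw', ap_inv]
        have e1 : x (y (V ++ w)) = p (y (V ++ w)) := by
          rw [hyw, hx1 i hiX, hp1']
        have e2 : p (y (V ++ w)) = y (p (V ++ w)) :=
          congrArg (fun f : Pm => f (V ++ w)) hyp.symm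
        have e3 : p (V ++ w) = V ++ t w := by
          have := hp1' 0 w
          have h0 : γ 0 = 1 := by simp [hγ]
          rw [h0] at this
          exact this
        rw [e1, e2, e3]
      have e1 : x ((y * z * y⁻¹) (y (V ++ w))) = (y * z * y⁻¹) (x (y (V ++ w))) :=
        congrArg (fun f : Pm => f (y (V ++ w))) heq
      rw [hzV, hxp, hxp, hzV] at e1
      exact List.append_cancel_left (y.injective e1)

theorem grigorchuk_torusRich : TorusRich GrigorchukGroup := by
  intro M
  obtain ⟨g, hg, v, h⟩ := exists_cyc (M + 1)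
  have hM : M < 2 ^ (M + 1) := lt_trans (Nat.lt_two_pow_self) (Nat.pow_lt_pow_right (by norm_num)
    (by omega))
  refine ⟨2 ^ (M + 1), hM, ?_⟩
  obtain ⟨p, hp, z, hz, g₂, hg₂, h1, h2, h3, κ, h4, h5, h6⟩ := torus_core hg (by positivity) h
  refine ⟨⟨p, K_le hp⟩, ⟨z, K_le hz⟩, ⟨g, K_le hg⟩, ⟨g₂, K_le hg₂⟩, Subtype.ext h1,
    Subtype.ext h2, Subtype.ext h3, fun x => κ x, h4, fun x hx => ?_, fun X => ?_⟩
  · exact h5 x x.2 (congrArg Subtype.val hx)
  · obtain ⟨x, hx, h7⟩ := h6 X
    refine ⟨⟨x, K_le hx⟩, fun y hy => ?_⟩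
    rw [← h7 y y.2 (congrArg Subtype.val hy)]
    refine not_congr ⟨fun e => congrArg Subtype.val e, fun e => Subtype.ext e⟩

end Pool.Agent.Lib.MP_68c508_lc
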