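import Pool.Agent.Lib.MP_68c508_lc.Defs

/-!
The branch structure of the Grigorchuk group and the construction of tori.
-/

namespace Pool.Agent.Lib.MP_68c508_lc

abbrev Pm : Type := Equiv.Perm (List Bool)

/-! ### pairs of permutations -/

/-- the function acting by `f` below `0` and by `g` below `1` -/
def prFun (f g : Pm) : List Bool → List Bool
  | [] => []
  | false :: w => false :: f w
  | true :: w => true :: g w

theorem prFun_prFun (f g f' g' : Pm) (w : List Bool) :
    prFun f g (prFun f' g' w) = prFun (f * f') (g * g') w := by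
  match w with
  | [] => rfl
  | false :: w => rfl
  | true :: w => rfl

theorem prFun_one (w : List Bool) : prFun 1 1 w = w := by
  match w with
  | [] => rfl
  | false :: w => rfl
  | true :: w => rfl

/-- the permutation acting by `f` below `0` and by `g` below `1` -/
def pr (f g : Pm) : Pm where
  toFun := prFun f g
  invFun := prFun f⁻¹ g⁻¹
  left_inv w := by rw [prFun_prFun, inv_mul_cancel, inv_mul_cancel, prFun_one]
  right_inv w := by rw [prFun_prFun, mul_inv_cancel, mul_inv_cancel, prFun_one]

theorem pr_nil (f g : Pm) : pr f g [] = [] := rfl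
theorem pr_false (f g : Pm) (w : List Bool) : pr f g (false :: w) = false :: f w := rfl
theorem pr_true (f g : Pm) (w : List Bool) : pr f g (true :: w) = true :: g w := rfl

theorem pr_mul (f g f' g' : Pm) : pr f g * pr f' g' = pr (f * f') (g * g') := by
  ext1 w; exact prFun_prFun f g f' g' w

theorem pr_one : pr 1 1 = 1 := by
  ext1 w; exact prFun_one w

theorem pr_inv (f g : Pm) : (pr f g)⁻¹ = pr f⁻¹ g⁻¹ := by
  rw [inv_eq_iff_mul_eq_one, pr_mul, mul_inv_cancel, mul_inv_cancel, pr_one]

theorem pr_pow (f g : Pm) (n : ℕ) : (pr f g) ^ n = pr (f ^ n) (g ^ n) := by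
  induction n with
  | zero => simp [pr_one]
  | succ n ih => rw [pow_succ, ih, pr_mul, pow_succ, pow_succ]

theorem b_eq : b = pr a c := by
  ext1 w
  match w with
  | [] => rfl
  | false :: w => rfl
  | true :: w => rfl

theorem c_eq : c = pr a d := by
  ext1 w
  match w with
  | [] => rfl
  | false :: w => rfl
  | true :: w => rfl

theorem d_eq : d = pr 1 b := by
  ext1 w
  match w with
  | [] => rfl
  | false :: w => rfl
  | true :: w => rfl

theorem a_mul_a : a * a = 1 := by ext1 w; exact fa_fa w
theorem b_mul_b : b * b = 1 := by ext1 w; exact (fbcd_inv w).1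
theorem c_mul_c : c * c = 1 := by ext1 w; exact (fbcd_inv w).2.1
theorem d_mul_d : d * d = 1 := by ext1 w; exact (fbcd_inv w).2.2

theorem fbcd_mul (w : List Bool) : fb (fc w) = fd w ∧ fc (fd w) = fb w ∧ fd (fb w) = fc w := by
  induction w with
  | nil => simp [fb, fc, fd]
  | cons x w ih => cases x <;> simp [fb, fc, fd, ih, fa_fa w]

theorem b_mul_c : b * c = d := by ext1 w; exact (fbcd_mul w).1
theorem c_mul_d : c * d = b := by ext1 w; exact (fbcd_mul w).2.1
theorem d_mul_b : d * b = c := by ext1 w; exact (fbcd_mul w).2.2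

theorem a_inv : a⁻¹ = a := inv_eq_of_mul_eq_one_right a_mul_a
theorem b_inv : b⁻¹ = b := inv_eq_of_mul_eq_one_right b_mul_b
theorem c_inv : c⁻¹ = c := inv_eq_of_mul_eq_one_right c_mul_c
theorem d_inv : d⁻¹ = d := inv_eq_of_mul_eq_one_right d_mul_d

theorem b_mul_d : b * d = c := by
  have h := congrArg (·⁻¹) d_mul_b
  simpa [mul_inv_rev, b_inv, c_inv, d_inv] using h

theorem a_pr_a (f g : Pm) : a * pr f g * a = pr g f := by
  ext1 w
  match w with
  | [] => rfl
  | false :: w => rfl
  | true :: w => rfl

/-! ### tree automorphisms -/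

/-- length and prefix preserving -/
def IsTA (f : Pm) : Prop := ∀ w : List Bool, (f w).length = w.length ∧
  ∀ n, f (w.take n) = (f w).take n

theorem IsTA.one : IsTA 1 := fun _ => ⟨rfl, fun _ => rfl⟩

theorem IsTA.mul {f g : Pm} (hf : IsTA f) (hg : IsTA g) : IsTA (f * g) := by
  intro w
  refine ⟨?_, fun n => ?_⟩
  · show (f (g w)).length = _
    rw [(hf _).1, (hg _).1]
  · show f (g (w.take n)) = (f (g w)).take n
    rw [(hg _).2, (hf _).2]

theorem IsTA.inv {f : Pm} (hf : IsTA f) : IsTA f⁻¹ := by
  intro w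
  refine ⟨?_, fun n => ?_⟩
  · rw [← (hf (f⁻¹ w)).1]
    simp
  · apply f.injective
    rw [(hf (f⁻¹ w)).2]
    simp

theorem IsTA.pr {f g : Pm} (hf : IsTA f) (hg : IsTA g) : IsTA (pr f g) := by
  intro w
  match w with
  | [] => simp [pr_nil]
  | false :: w =>
    refine ⟨by simp [pr_false, (hf w).1], fun n => ?_⟩
    cases n with
    | zero => simp [pr_nil]
    | succ n => simp [pr_false, (hf w).2]
  | true :: w =>
    refine ⟨by simp [pr_true, (hg w).1], fun n => ?_⟩
    cases n with
    | zero => simp [pr_nil]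
    | succ n => simp [pr_true, (hg w).2]

theorem isTA_a : IsTA a := by
  intro w
  match w with
  | [] => exact ⟨rfl, fun n => by simp [show a [] = [] from rfl]⟩
  | x :: w =>
    refine ⟨rfl, fun n => ?_⟩
    cases n with
    | zero => rfl
    | succ n => rfl

theorem isTA_bcd_aux (w : List Bool) :
    ((b w).length = w.length ∧ ∀ n, b (w.take n) = (b w).take n) ∧
    ((c w).length = w.length ∧ ∀ n, c (w.take n) = (c w).take n) ∧
    ((d w).length = w.length ∧ ∀ n, d (w.take n) = (d w).take n) := by
  induction w with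
  | nil =>
    have h1 : b [] = [] := rfl
    have h2 : c [] = [] := rfl
    have h3 : d [] = [] := rfl
    simp [h1, h2, h3]
  | cons x w ih =>
    obtain ⟨hb, hc, hd⟩ := ih
    have ha := isTA_a w
    cases x with
    | false =>
      have h1 : ∀ v, b (false :: v) = false :: a v := fun _ => rfl
      have h2 : ∀ v, c (false :: v) = false :: a v := fun _ => rfl
      have h3 : ∀ v, d (false :: v) = false :: v := fun _ => rfl
      have h1' : b [] = [] := rfl
      have h2' : c [] = [] := rfl
      have h3' : d [] = [] := rfl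
      refine ⟨⟨by simp [h1, ha.1], fun n => ?_⟩, ⟨by simp [h2, ha.1], fun n => ?_⟩,
        ⟨by simp [h3], fun n => ?_⟩⟩ <;> cases n <;> simp [h1, h2, h3, h1', h2', h3', ha.2]
    | true =>
      have h1 : ∀ v, b (true :: v) = true :: c v := fun _ => rfl
      have h2 : ∀ v, c (true :: v) = true :: d v := fun _ => rfl
      have h3 : ∀ v, d (true :: v) = true :: b v := fun _ => rfl
      have h1' : b [] = [] := rfl
      have h2' : c [] = [] := rfl
      have h3' : d [] = [] := rfl
      refine ⟨⟨by simp [h1, hc.1], fun n => ?_⟩, ⟨by simp [h2, hd.1], fun n => ?_⟩,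
        ⟨by simp [h3, hb.1], fun n => ?_⟩⟩ <;> cases n <;>
        simp [h1, h2, h3, h1', h2', h3', hb.2, hc.2, hd.2]

theorem isTA_b : IsTA b := fun w => (isTA_bcd_aux w).1
theorem isTA_c : IsTA c := fun w => (isTA_bcd_aux w).2.1
theorem isTA_d : IsTA d := fun w => (isTA_bcd_aux w).2.2

theorem a_mem : a ∈ GrigorchukGroup := Subgroup.subset_closure (by simp)
theorem b_mem : b ∈ GrigorchukGroup := Subgroup.subset_closure (by simp)
theorem c_mem : c ∈ GrigorchukGroup := Subgroup.subset_closure (by simp)
theorem d_mem : d ∈ GrigorchukGroup := Subgroup.subset_closure (by simp)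

theorem isTA_of_mem {g : Pm} (hg : g ∈ GrigorchukGroup) : IsTA g := by
  induction hg using Subgroup.closure_induction with
  | mem x hx =>
    simp only [Set.mem_insert_iff, Set.mem_singleton_iff] at hx
    rcases hx with rfl | rfl | rfl | rfl
    · exact isTA_a
    · exact isTA_b
    · exact isTA_c
    · exact isTA_d
  | one => exact IsTA.one
  | mul x y _ _ hx hy => exact hx.mul hy
  | inv x _ hx => exact hx.inv

/-! ### the subgroup K -/

/-- `t = (ab)^2` -/
def t : Pm := a * b * a * b

theorem t_mem : t ∈ GrigorchukGroup :=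
  mul_mem (mul_mem (mul_mem a_mem b_mem) a_mem) b_mem

/-- The subgroup generated by the conjugates of `t` in the Grigorchuk group. -/
def K : Subgroup Pm := Subgroup.closure {x | ∃ g ∈ GrigorchukGroup, x = g * t * g⁻¹}

theorem K_le : K ≤ GrigorchukGroup := by
  unfold K
  rw [Subgroup.closure_le]
  rintro x ⟨g, hg, rfl⟩
  exact mul_mem (mul_mem hg t_mem) (inv_mem hg)

theorem conj_mem_K {g k : Pm} (hg : g ∈ GrigorchukGroup) (hk : k ∈ K) : g * k * g⁻¹ ∈ K := by
  unfold K at hk
  induction hk using Subgroup.closure_induction with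
  | mem x hx =>
    obtain ⟨h, hh, rfl⟩ := hx
    refine Subgroup.subset_closure ⟨g * h, mul_mem hg hh, ?_⟩
    group
  | one => rw [mul_one, mul_inv_cancel]; exact one_mem _
  | mul x y _ _ hx hy =>
    have : g * (x * y) * g⁻¹ = (g * x * g⁻¹) * (g * y * g⁻¹) := by group
    rw [this]; exact mul_mem hx hy
  | inv x _ hx =>
    have : g * x⁻¹ * g⁻¹ = (g * x * g⁻¹)⁻¹ := by group
    rw [this]; exact inv_mem hx

theorem t_mem_K : t ∈ K := Subgroup.subset_closure ⟨1, one_mem _, by group⟩

theorem t_eq : t = pr (c * a) (a * c) := by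
  unfold t
  rw [b_eq, a_pr_a, pr_mul]

theorem pr_t_one_eq : pr t 1 = t⁻¹ * ((a * d) * t⁻¹ * (a * d)⁻¹) := by
  have h1 : pr t 1 = (b * (a * d * a)) * (b * (a * d * a)) := by
    rw [d_eq, a_pr_a, b_eq, pr_mul, pr_mul, mul_one, c_mul_c, ← b_eq]
    rfl
  rw [h1]
  have ha : ∀ x, a * (a * x) = x := fun x => by rw [← mul_assoc, a_mul_a, one_mul]
  have hb : ∀ x, b * (b * x) = x := fun x => by rw [← mul_assoc, b_mul_b, one_mul]
  have hbd : ∀ x, b * (d * (b * x)) = d * x := fun x => by
    rw [← mul_assoc b d, b_mul_d, ← mul_assoc c b]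
    have : c * b = d := by rw [← d_mul_b, mul_assoc, b_mul_b, mul_one]
    rw [this]
  unfold t
  simp only [mul_inv_rev, a_inv, b_inv, d_inv, mul_assoc]
  rw [ha, hbd]

theorem pr_t_one_mem : pr t 1 ∈ K := by
  rw [pr_t_one_eq]
  exact mul_mem (inv_mem t_mem_K) (conj_mem_K (mul_mem a_mem d_mem) (inv_mem t_mem_K))

/-- every element of the group is the first coordinate of an element of the level stabilizer -/
theorem exists_first {g : Pm} (hg : g ∈ GrigorchukGroup) : ∃ f, pr g f ∈ GrigorchukGroup := by
  induction hg using Subgroup.closure_induction with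
  | mem x hx =>
    simp only [Set.mem_insert_iff, Set.mem_singleton_iff] at hx
    rcases hx with rfl | rfl | rfl | rfl
    · exact ⟨c, by rw [← b_eq]; exact b_mem⟩
    · refine ⟨1, ?_⟩
      rw [← a_pr_a, ← d_eq]; exact mul_mem (mul_mem a_mem d_mem) a_mem
    · refine ⟨a, ?_⟩
      rw [← a_pr_a, ← b_eq]; exact mul_mem (mul_mem a_mem b_mem) a_mem
    · refine ⟨a, ?_⟩
      rw [← a_pr_a, ← c_eq]; exact mul_mem (mul_mem a_mem c_mem) a_mem
  | one => exact ⟨1, by rw [pr_one]; exact one_mem _⟩
  | mul x y _ _ hx hy =>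
    obtain ⟨f, hf⟩ := hx
    obtain ⟨f', hf'⟩ := hy
    exact ⟨f * f', by rw [← pr_mul]; exact mul_mem hf hf'⟩
  | inv x _ hx =>
    obtain ⟨f, hf⟩ := hx
    exact ⟨f⁻¹, by rw [← pr_inv]; exact inv_mem hf⟩

theorem pr_left_mem {k : Pm} (hk : k ∈ K) : pr k 1 ∈ K := by
  have hk' := hk
  unfold K at hk'
  induction hk' using Subgroup.closure_induction with
  | mem x hx =>
    obtain ⟨g, hg, rfl⟩ := hx
    obtain ⟨f, hf⟩ := exists_first hg
    have : pr (g * t * g⁻¹) 1 = pr g f * pr t 1 * (pr g f)⁻¹ := by
      rw [pr_inv, pr_mul, pr_mul]; simp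
    rw [this]
    exact conj_mem_K hf pr_t_one_mem
  | one => rw [pr_one]; exact one_mem _
  | mul x y hx' hy' hx hy =>
    have : pr (x * y) 1 = pr x 1 * pr y 1 := by rw [pr_mul, one_mul]
    rw [this]; exact mul_mem (hx hx') (hy hy')
  | inv x hx' hx =>
    have : pr x⁻¹ 1 = (pr x 1)⁻¹ := by rw [pr_inv, inv_one]
    rw [this]; exact inv_mem (hx hx')

theorem pr_right_mem {k : Pm} (hk : k ∈ K) : pr 1 k ∈ K := by
  rw [← a_pr_a]
  have := conj_mem_K a_mem (pr_left_mem hk)
  rwa [a_inv] at this

/-! ### copies at a vertex -/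

/-- the copy of `f` acting below the vertex `v` -/
def dl : List Bool → Pm → Pm
  | [], f => f
  | false :: v, f => pr (dl v f) 1
  | true :: v, f => pr 1 (dl v f)

theorem dl_mem_K (v : List Bool) {k : Pm} (hk : k ∈ K) : dl v k ∈ K := by
  induction v with
  | nil => exact hk
  | cons x v ih =>
    cases x with
    | false => exact pr_left_mem ih
    | true => exact pr_right_mem ih

theorem dl_apply (v : List Bool) (f : Pm) (w : List Bool) : dl v f (v ++ w) = v ++ f w := by
  induction v with
  | nil => rfl
  | cons x v ih =>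
    cases x with
    | false => show pr _ _ (false :: (v ++ w)) = _; rw [pr_false, ih]; rfl
    | true => show pr _ _ (true :: (v ++ w)) = _; rw [pr_true, ih]; rfl

theorem dl_fix (v : List Bool) (f : Pm) (w : List Bool) (h : w.take v.length ≠ v) :
    dl v f w = w := by
  induction v generalizing w with
  | nil => exact absurd rfl h
  | cons x v ih =>
    cases w with
    | nil => cases x <;> rfl
    | cons y w =>
      cases x with
      | false =>
        cases y with
        | false =>
          show false :: dl v f w = _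
          rw [ih w]
          intro h'
          apply h
          simp [h']
        | true => rfl
      | true =>
        cases y with
        | false => rfl
        | true =>
          show true :: dl v f w = _
          rw [ih w]
          intro h'
          apply h
          simp [h']

theorem eq_append_of_take {v w : List Bool} (h : w.take v.length = v) :
    ∃ u, w = v ++ u := ⟨w.drop v.length, by
  conv_lhs => rw [← List.take_append_drop v.length w]
  rw [h]⟩

/-! ### an involution in K moving a vertex -/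

theorem ac_sq : a * c * (a * c) = pr (d * a) (a * d) := by
  have : a * c * (a * c) = (a * c * a) * c := by group
  rw [this, c_eq, a_pr_a, pr_mul]

theorem ad_sq : a * d * (a * d) = pr b b := by
  have : a * d * (a * d) = (a * d * a) * d := by group
  rw [this, d_eq, a_pr_a, pr_mul, one_mul, mul_one]

theorem ad_pow_four : (a * d) ^ 4 = 1 := by
  have : (a * d) ^ 4 = (a * d * (a * d)) * (a * d * (a * d)) := by
    rw [show (4 : ℕ) = 2 * 2 by norm_num, pow_mul, pow_two, pow_two]
  rw [this, ad_sq, pr_mul, b_mul_b, pr_one]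

theorem pow_swap (x y : Pm) (hx : x * x = 1) (hy : y * y = 1) (n : ℕ) (h : (x * y) ^ n = 1) :
    (y * x) ^ n = 1 := by
  have hxi : x⁻¹ = x := inv_eq_of_mul_eq_one_right hx
  have hyi : y⁻¹ = y := inv_eq_of_mul_eq_one_right hy
  have : y * x = (x * y)⁻¹ := by rw [mul_inv_rev, hxi, hyi]
  rw [this, inv_pow, h, inv_one]

theorem ac_pow_eight : (a * c) ^ 8 = 1 := by
  have : (a * c) ^ 8 = (a * c * (a * c)) ^ 4 := by
    rw [show (8 : ℕ) = 2 * 4 by norm_num, pow_mul, pow_two]
  rw [this, ac_sq, pr_pow, ad_pow_four, pow_swap a d a_mul_a d_mul_d 4 ad_pow_four, pr_one]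

theorem t_pow_eight : t ^ 8 = 1 := by
  rw [t_eq, pr_pow, ac_pow_eight, pow_swap a c a_mul_a c_mul_c 8 ac_pow_eight, pr_one]

/-- the involution `s = t^4` -/
def s : Pm := t ^ 4

theorem s_mem : s ∈ K := pow_mem t_mem_K 4

theorem s_mul_s : s * s = 1 := by
  unfold s; rw [← pow_add]; exact t_pow_eight

/-- a vertex moved by `s` -/
def us : List Bool := [false, false, false, false, false]

theorem s_us : s us ≠ us := by decide

theorem t_pr_t : t * pr t 1 ≠ pr t 1 * t := by
  intro h
  have h1 := congrArg (fun f : Pm => f [false, false, false, false, false, false]) h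
  revert h1
  decide

theorem t_moves : t [false, false] ≠ [false, false] := by decide

end Pool.Agent.Lib.MP_68c508_lc
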